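import Pool.Agent.Lib.MP_f80667_ag.Lv.Ke2
import Pool.Agent.Lib.MP_f80667_ag.Kt.Ke1

/-! The trace functionals: homogeneity, conjugates. -/

open ZC BE PE CV IntermediateField

namespace GX

namespace Kt

variable {F : Type} [Field F] {N d : ℕ} {ι : Type} {f : ι → MvPolynomial (Fin N) F}
  {K Ω : Type} [Field K] [CharZero K] [Field Ω] [Algebra K Ω] [Algebra F K] [Algebra F Ω]
  [IsScalarTower F K Ω] [IsAlgClosure K Ω] {L : Ld K Ω} {ψ : Prj K N d} {π : Ω} {k s : ℕ}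
  {χ : ((Xf f).pt Ω →₀ ℤ) → ZMod L.p} {c : Fin (d + 1) → Ω} {w : Ω}

omit [CharZero K] [Algebra F K] [Algebra F Ω] [IsScalarTower F K Ω] [IsAlgClosure K Ω] in
private theorem ke2_map (n : ℕ) (φ : Ω ≃ₐ[K] Ω) {x : Ω} (hx : x ∈ L.Ur ⊥ n) :
    φ x ∈ L.Ur ⊥ n := by
  have h1 : (L.Ur ⊥ n).map (φ : Ω →ₐ[K] Ω) ≤ L.Ur ⊥ n := by
    unfold Ld.Ur
    rw [IntermediateField.map_sup, IntermediateField.adjoin_map, IntermediateField.map_bot]
    refine sup_le_sup le_rfl (IntermediateField.adjoin.mono K _ _ ?_)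
    rintro _ ⟨x, hx, rfl⟩
    exact Ld.te_act φ hx
  exact h1 ⟨x, hx, rfl⟩

omit [CharZero K] [Algebra F K] [Algebra F Ω] [IsScalarTower F K Ω] [IsAlgClosure K Ω] in
private theorem ke2_iv (hπ : Uf L π) {M : IntermediateField K Ω} {g : Fin (d + 1) → Ω}
    (hg : Iv L M g) (hs : 2 ≤ s) :
    Iv L M (π ^ s • g) ∧ ∀ r, L.nm ((π ^ s • g) r) < 1 := by
  have h1 : ∀ r, L.nm ((π ^ s • g) r) < 1 := by
    intro r
    rw [Pi.smul_apply, smul_eq_mul, L.mul, L.pow]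
    exact (mul_le_of_le_one_right (pow_nonneg (L.nonneg _) s) (hg r).2).trans_lt
      (pow_lt_one₀ (L.nonneg _) hπ.lt (by omega))
  refine ⟨fun r => ⟨?_, (h1 r).le⟩, h1⟩
  rw [Pi.smul_apply, smul_eq_mul]
  exact mul_mem (pow_mem (hπ.mem M) s) (hg r).1

omit [CharZero K] [Algebra F K] [Algebra F Ω] [IsScalarTower F K Ω] [IsAlgClosure K Ω] in
private theorem ke2_zero (M : IntermediateField K Ω) :
    Iv L M (0 : Fin (d + 1) → Ω) ∧ ∀ r, L.nm ((0 : Fin (d + 1) → Ω) r) < 1 := by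
  have h1 : ∀ r, L.nm ((0 : Fin (d + 1) → Ω) r) < 1 := by
    intro r
    rw [Pi.zero_apply, L.zero]
    exact one_pos
  exact ⟨fun r => ⟨by rw [Pi.zero_apply]; exact zero_mem M, (h1 r).le⟩, h1⟩

/-- Homogeneity. Proof: `cyv_hom` over `Ur ⊥ n` with `t ∈ Ur ⊥ n` (`n` a common multiple): `χ` of the value at `(t c, t w)`, `π ^ s g`, is that at `(c, w)`, `π ^ s (t⁻¹ g)`; `lw_eq`. -/
theorem lw_hom (hy : Hyt f L π k) (hψ : Pj f L ψ) (hχ : Ch f L π s χ) (hs : 2 ≤ s) {n : ℕ}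
    (hn : n ≠ 0) (hkn : k ∣ n) (hG : Gp L ψ (L.Ur ⊥ n) c w) {t : Ω} (ht : t ∈ L.Ur ⊥ n)
    (ht1 : L.nm t = 1) (r : Fin (d + 1)) : rv L t * lw f L ψ π s χ k (t • c) (t * w) r =
      lw f L ψ π s χ k c w r := by
  obtain ⟨hz1, hz2⟩ := ke2_zero (L := L) (d := d) (L.Ur ⊥ n)
  have hG' : Gp L ψ (L.Ur ⊥ n) (t • c) (t * w) := (cyv_hom hy.hm hψ hG hz1 hz2 ht ht1).1
  have hsp := lw_spec hy hψ hχ hs hn hkn hG'
  have hrt : L.rs.Hv t (rv L t) := rv_hv L ht1.le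
  have hrt' : rv L t ^ L.p ^ n = rv L t := kf_res hy.rf hn hkn ht hrt
  have h1 : Lw₁ f L ψ π s χ n c w
      (fun r => rv L t * lw f L ψ π s χ k (t • c) (t * w) r) := by
    refine ⟨fun r => ?_, fun g y hg hgy => ?_⟩
    · change (rv L t * lw f L ψ π s χ k (t • c) (t * w) r) ^ L.p ^ n =
        rv L t * lw f L ψ π s χ k (t • c) (t * w) r
      rw [mul_pow, hrt', hsp.1 r]
    · obtain ⟨hh, hlt⟩ := ke2_iv hy.uf hg hs
      have h2 := (cyv_hom hy.hm hψ hG hh hlt ht ht1).2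
      have h3 : t • (π ^ s • g) = π ^ s • (t • g) := smul_comm _ _ _
      have h4 : Iv L (L.Ur ⊥ n) (t • g) := by
        intro r
        rw [Pi.smul_apply, smul_eq_mul]
        refine ⟨mul_mem ht (hg r).1, ?_⟩
        rw [L.mul, ht1, one_mul]
        exact (hg r).2
      have h5 : ∀ r, L.rs.Hv ((t • g) r) (rv L t * y r) := fun r => hrt.mul (hgy r)
      rw [← h2, h3, hsp.2 (t • g) (fun r => rv L t * y r) h4 h5]
      refine congrArg (trn L.p n) (Finset.sum_congr rfl fun r _ => ?_)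
      ring
  exact (congrFun (lw_eq hy hψ hχ hs hn hkn hG h1) r).symm

/-- **Conjugates.** Proof: `γ` a Frobenius automorphism of `K` (`Frob L.toLf ⊥ γ (p ^ k)`): `cyv_act`; the residue of `γ x` is the power `p ^ k` of that of `x` (as in `tn_frob` of `Gy/Vf.lean`); for `a = lw .. c w`: the vector `a_r ^ p ^ k` satisfies `Lw₁ n` at `(γ c, γ w)`: given `g` with residues `y`, take
`γ⁻¹ g` and the roots of `y` (`trn_rot`: `trn (x ^ p ^ k) = trn x`); `lw_eq`. -/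
theorem lw_frob (hy : Hyt f L π k) (hψ : Pj f L ψ) (hχ : Ch f L π s χ) (hs : 2 ≤ s) {n : ℕ}
    (hn : n ≠ 0) (hkn : k ∣ n) (hG : Gp L ψ (L.Ur ⊥ n) c w) {γ : Ω ≃ₐ[K] Ω}
    (hγ : Frob L.toLf (⊥ : IntermediateField K Ω) γ (L.p ^ k)) (r : Fin (d + 1)) :
    lw f L ψ π s χ k (fun r => γ (c r)) (γ w) r = lw f L ψ π s χ k c w r ^ L.p ^ k := by
  have hch : CharP L.κ L.p := L.char_κ
  have hex : ExpChar L.κ L.p := ExpChar.prime L.pp
  have hsp := lw_spec hy hψ hχ hs hn hkn hG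
  obtain ⟨hz1, hz2⟩ := ke2_zero (L := L) (d := d) (L.Ur ⊥ n)
  have hG' : Gp L ψ (L.Ur ⊥ n) (fun r => γ (c r)) (γ w) := (cyv_act hψ hn hG hz1 hz2 γ).1
  have hfr : ∀ (a : Ω) (b : L.κ), L.rs.Hv a b → L.rs.Hv (γ a) (b ^ L.p ^ k) := by
    intro a b hab
    have ha := L.hv_int hab
    obtain ⟨b', hb'⟩ := L.hv_of (x := γ a) (by rw [L.act]; exact ha)
    have h1 := hγ.frob a ha
    have h2 : b' = b ^ L.p ^ k := (L.hv_sub hb' (hab.pow _)).2 h1
    rw [← h2]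
    exact hb'
  have hγπ : γ π = π := by
    obtain ⟨x, hx⟩ := IntermediateField.mem_bot.1 hy.uf.bot
    rw [← hx]
    exact γ.commutes x
  have h1 : Lw₁ f L ψ π s χ n (fun r => γ (c r)) (γ w)
      (fun r => lw f L ψ π s χ k c w r ^ L.p ^ k) := by
    refine ⟨fun r => ?_, fun g y hg hgy => ?_⟩
    · change (lw f L ψ π s χ k c w r ^ L.p ^ k) ^ L.p ^ n = lw f L ψ π s χ k c w r ^ L.p ^ k
      rw [← pow_mul, mul_comm, pow_mul, hsp.1 r]
    · have hg₀ : Iv L (L.Ur ⊥ n) fun r => γ.symm (g r) := by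
        intro r
        refine ⟨ke2_map n γ.symm (hg r).1, ?_⟩
        rw [L.act]
        exact (hg r).2
      obtain ⟨y₀, hy₀⟩ : ∃ y₀ : Fin (d + 1) → L.κ, ∀ r, L.rs.Hv (γ.symm (g r)) (y₀ r) := by
        choose y₀ hy₀ using fun r => L.hv_of (hg₀ r).2
        exact ⟨y₀, hy₀⟩
      have hyy : ∀ r, y₀ r ^ L.p ^ k = y r := by
        intro r
        have h2 := hfr _ _ (hy₀ r)
        rw [γ.apply_symm_apply] at h2
        exact h2.uniq (hgy r)
      obtain ⟨hh, hlt⟩ := ke2_iv hy.uf hg₀ hs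
      have h2 := (cyv_act hψ hn hG hh hlt γ).2.2
      have h3 : (fun r => γ ((π ^ s • fun r => γ.symm (g r)) r)) = π ^ s • g := by
        funext r
        rw [Pi.smul_apply, Pi.smul_apply, smul_eq_mul, smul_eq_mul, map_mul, map_pow, hγπ,
          γ.apply_symm_apply]
      rw [h3] at h2
      rw [h2, hsp.2 _ y₀ hg₀ hy₀]
      have h4 : ∑ r, y r * lw f L ψ π s χ k c w r ^ L.p ^ k =
          (∑ r, y₀ r * lw f L ψ π s χ k c w r) ^ L.p ^ k := by
        rw [← iterateFrobenius_def, map_sum]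
        refine Finset.sum_congr rfl fun r _ => ?_
        rw [iterateFrobenius_def, mul_pow, hyy]
      have h5 : (∑ r, y₀ r * lw f L ψ π s χ k c w r) ^ L.p ^ n =
          ∑ r, y₀ r * lw f L ψ π s χ k c w r := by
        rw [← iterateFrobenius_def, map_sum]
        refine Finset.sum_congr rfl fun r _ => ?_
        rw [iterateFrobenius_def, mul_pow, hsp.1 r, kf_res hy.rf hn hkn (hg₀ r).1 (hy₀ r)]
      exact (trn_rot h5).symm.trans (congrArg (trn L.p n) h4.symm)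
  exact congrFun (lw_eq hy hψ hχ hs hn hkn hG' h1) r

end Kt

end GX
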