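import Pool.Agent.Lib.MP_f80667_ag.Lv.Kj1
import Pool.Agent.Lib.MP_f80667_ag.Kt.Kj
import Pool.Agent.Lib.MP_f80667_ag.Kt.Kh1

/-! The sums over the roots: arcs, the class `Pc`. -/

open ZC BE PE CV IntermediateField

namespace GX

namespace Kt

variable {F : Type} [Field F] {N d : ℕ} {ι : Type} {f : ι → MvPolynomial (Fin N) F}
  {K Ω : Type} [Field K] [CharZero K] [Field Ω] [Algebra K Ω] [Algebra F K] [Algebra F Ω]
  [IsScalarTower F K Ω] [IsAlgClosure K Ω] {L : Ld K Ω} {ψ : Prj K N d} {π : Ω} {k s : ℕ}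
  {χ : ((Xf f).pt Ω →₀ ℤ) → ZMod L.p}

/-- **Arcs.** Proof: `dd_poly` for `T x = Pw .. (a (x)) (ρ (a' (x)))`, `δ = (rD L ψ) (a mod π)` as a polynomial in one variable (`MvPolynomial.aeval (fun r => (a r).map (rdn L)) (rD L ψ)`; its value at `ρ x` is the value of `rD L ψ` at `ρ (a (x))`), `M = j b`; `pw_crv`, `rD_one`. -/
theorem pw_arc (hy : Hyt f L π k) (hψ : Pj f L ψ) (hχ : Ch f L π s χ) (hs : 2 ≤ s) (j b : ℕ)
    (a : Fin (d + 1) → Polynomial (Rn L)) (hb : ∀ i, (a i).natDegree ≤ b) :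
    ∃ q : Polynomial L.κ, q.natDegree ≤ j * b ∧ ∀ z : Rn L,
      MvPolynomial.eval (fun i => rdn L ((a i).eval z)) (rD L ψ) ≠ 0 →
        Pw f L ψ π s χ k j (fun i => (a i).eval z)
          (fun i => rdn L ((Polynomial.derivative (a i)).eval z)) = q.eval (rdn L z) := by
  have hac : IsAlgClosed Ω := IsAlgClosure.isAlgClosed K
  have hcl : IsAlgClosed L.κ := L.κ_closed
  have hinf : Infinite L.κ := inferInstance
  obtain ⟨δ, hδ⟩ : ∃ δ : Polynomial L.κ, ∀ z : Rn L, δ.eval (rdn L z) =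
      MvPolynomial.eval (fun i => rdn L ((a i).eval z)) (rD L ψ) := by
    refine ⟨MvPolynomial.aeval (fun r => (a r).map (rdn L)) (rD L ψ), fun z => ?_⟩
    induction rD L ψ using MvPolynomial.induction_on with
    | C x => rw [MvPolynomial.aeval_C, MvPolynomial.eval_C, Polynomial.algebraMap_eq,
        Polynomial.eval_C]
    | add p q hp hq => rw [map_add, map_add, Polynomial.eval_add, hp, hq]
    | mul_X p i hp =>
      rw [map_mul, map_mul, Polynomial.eval_mul, hp, MvPolynomial.aeval_X, MvPolynomial.eval_X,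
        Polynomial.eval_map_apply]
  obtain ⟨q, hq, hq'⟩ := dd_poly (rdn_surj (L := L)) (δ := δ) (M := j * b)
    (T := fun z => Pw f L ψ π s χ k j (fun i => (a i).eval z)
      (fun i => rdn L ((Polynomial.derivative (a i)).eval z))) (fun S hc hS hD => by
        have h1 := pw_crv hy hψ hχ hs a (b := b) (j := j) hb hS (fun z hz =>
          (rD_one hψ fun i => (a i).eval z).1 (by
            rw [← hδ]
            exact hD z hz)) (by omega)
        rw [← h1]
        refine Finset.sum_congr rfl fun x _ => congrArg₂ (· * ·) (congrArg _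
          (Finset.prod_congr ?_ fun _ _ => rfl)) rfl
        ext y
        simp only [Finset.mem_erase])
  refine ⟨q, hq, fun z hz => hq' z ?_⟩
  rw [hδ]
  exact hz

/-- **The class.** Proof: `add`, `smul`: `Pw` is linear in `u` by definition. `hom`: `pw_hom`. `arc`: `pw_arc`. `two`: `pw_diff` for the lifts (`lft_eq`, `rdn_surj`), `rD_one`. `addB`, `smulB`: `pw_diff` (the lift of a sum and the sum of the lifts), `pw_disc`, `pw_disc_smul` (a lift of `t`). -/
theorem pw_pc (hy : Hyt f L π k) (hψ : Pj f L ψ) (hχ : Ch f L π s χ) (hs : 2 ≤ s) (j : ℕ) :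
    Pc (rdn L) hy.uf.rn (rD L ψ) j (Pw f L ψ π s χ k j) (Bw f L ψ π s χ k hy.uf j) := by
  have hl : ∀ (y : Fin (d + 1) → L.κ) (r : Fin (d + 1)), rdn L (lft L y r) = y r :=
    lft_eq rdn_surj
  have hlD : ∀ y : Fin (d + 1) → L.κ, MvPolynomial.eval y (rD L ψ) ≠ 0 →
      L.nm (MvPolynomial.aeval (fun r => (lft L y r : Ω)) ψ.D) = 1 := by
    intro y h
    refine (rD_one hψ (lft L y)).1 ?_
    rwa [funext (hl y)]
  refine ⟨fun c _ u u' => ?_, fun c _ t u => ?_, fun c hc t ht u => ?_,
    fun n a hn => pw_arc hy hψ hχ hs j n a hn, fun y hy' η η' u => ?_,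
    fun y hy' t η u => ?_, fun c hc h u => ?_⟩
  · unfold Pw
    rw [← Finset.sum_add_distrib]
    refine Finset.sum_congr rfl fun w _ => ?_
    rw [← mul_add, ← Finset.sum_add_distrib]
    refine congrArg _ (Finset.sum_congr rfl fun r _ => ?_)
    rw [Pi.add_apply, mul_add]
  · unfold Pw
    rw [Finset.mul_sum]
    refine Finset.sum_congr rfl fun w _ => ?_
    rw [Finset.mul_sum, Finset.mul_sum, Finset.mul_sum]
    refine Finset.sum_congr rfl fun r _ => ?_
    rw [Pi.smul_apply, smul_eq_mul]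
    ring
  · exact pw_hom hy hψ hχ hs ((rD_one hψ c).1 hc) ht j u
  · have h1 := pw_diff hy hψ hχ hs (c := lft L y) (c' := lft L y) (h := lft L η + lft L η')
      (h' := lft L (η + η')) (hlD y hy') (fun _ => rfl) (fun r => by
        rw [hl, Pi.add_apply, Pi.add_apply, map_add, hl, hl]) j u
    have h2 := pw_disc hy hψ hχ hs (c := lft L y) (h := lft L η) (h' := lft L η')
      (hlD y hy') j u
    unfold Bw
    linear_combination h1 + h2
  · obtain ⟨b, rfl⟩ := rdn_surj t
    have h1 := pw_diff hy hψ hχ hs (c := lft L y) (c' := lft L y) (h := b • lft L η)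
      (h' := lft L (rdn L b • η)) (hlD y hy') (fun _ => rfl) (fun r => by
        rw [hl, Pi.smul_apply, Pi.smul_apply, smul_eq_mul, smul_eq_mul, map_mul, hl]) j u
    have h2 := pw_disc_smul hy hψ hχ hs (c := lft L y) (h := lft L η) (hlD y hy') b j u
    unfold Bw
    rw [h1, h2]
  · have h1 := pw_diff hy hψ hχ hs (c := c) (c' := lft L fun r => rdn L (c r)) (h := h)
      (h' := lft L fun r => rdn L (h r)) ((rD_one hψ c).1 hc) (fun r => hl _ r)
      (fun r => hl _ r) j u
    unfold Bw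
    rw [h1]
    ring

end Kt

end GX
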