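import Pool.Agent.Lib.MP_f80667_ag.Lv.Kk
import Pool.Agent.Lib.MP_f80667_ag.Kt.Ke1

/-! The characters of a graded piece are finite in number. -/

open ZC BE PE CV IntermediateField

namespace GX

namespace Kt

variable {F : Type} [Field F] {N d m : ℕ} {ι : Type} {f : ι → MvPolynomial (Fin N) F}
  {K Ω : Type} [Field K] [CharZero K] [Field Ω] [Algebra K Ω] [Algebra F K] [Algebra F Ω]
  [IsScalarTower F K Ω] [IsAlgClosure K Ω] {L : Ld K Ω} {ψ : Fin m → Prj K N d} {π : Ω}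
  {k s : ℕ}

omit [CharZero K] [IsAlgClosure K Ω] in
private theorem kk_chi_add (θ θ' : Gr f L π s →+ ZMod L.p) (z : (Xf f).pt Ω →₀ ℤ) :
    chi (θ + θ') z = chi θ z + chi θ' z := by
  by_cases hz : z ∈ Vl f L π s
  · rw [chi, chi, chi, dif_pos hz, dif_pos hz, dif_pos hz, AddMonoidHom.add_apply]
  · rw [chi, chi, chi, dif_neg hz, dif_neg hz, dif_neg hz, add_zero]

private theorem kk_val {R : Type} [Field R] {p : ℕ} [Fact p.Prime] [CharP R p] (a b : ZMod p) :
    ((a + b).val : R) = (a.val : R) + (b.val : R) := by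
  rw [ZMod.natCast_val, ZMod.natCast_val, ZMod.natCast_val]
  exact ZMod.cast_add' a b

private theorem kk_zero {R : Type} [Field R] {p : ℕ} [Fact p.Prime] [CharP R p] {a : ZMod p}
    (h : (a.val : R) = 0) : a = 0 := by
  have h1 := (CharP.cast_eq_zero_iff R p a.val).1 h
  have h2 := Nat.eq_zero_of_dvd_of_lt h1 a.val_lt
  exact (ZMod.val_eq_zero a).1 h2

/-- Proof: at every argument `lw (chi (θ + θ')) = lw (chi θ) + lw (chi θ')`: `lw_eq` with `n` from the argument, `lw_spec` for `θ` and `θ'`; `(θ + θ').val` in `L.κ` as `rb_val` in `Gy/Rb.lean`; `trn_add`. -/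
theorem ew_add (hy : Hyt f L π k) (hψ : ∀ i, Pj f L (ψ i)) (hs : 2 ≤ s)
    (θ θ' : Gr f L π s →+ ZMod L.p) : ew ψ k (θ + θ') = ew ψ k θ + ew ψ k θ' := by
  have : Fact L.p.Prime := ⟨L.pp⟩
  have : CharP L.κ L.p := L.char_κ
  funext z
  obtain ⟨⟨⟨i, u⟩, ⟨c, w⟩⟩, n, hn, hkn, hG⟩ := z
  have hG : Gp L (ψ i) (L.Ur ⊥ n) c w := hG
  have h1 := lw_spec hy (hψ i) (chi_ch hy.uf θ) hs hn hkn hG
  have h2 := lw_spec hy (hψ i) (chi_ch hy.uf θ') hs hn hkn hG
  have h3 : lw f L (ψ i) π s (chi (θ + θ')) k c w =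
      lw f L (ψ i) π s (chi θ) k c w + lw f L (ψ i) π s (chi θ') k c w := by
    refine lw_eq hy (hψ i) (chi_ch hy.uf (θ + θ')) hs hn hkn hG ⟨fun r => ?_, fun g y hg hgy => ?_⟩
    · rw [Pi.add_apply, add_pow_char_pow, h1.1, h2.1]
    · have h4 : (∑ r, y r * (lw f L (ψ i) π s (chi θ) k c w +
          lw f L (ψ i) π s (chi θ') k c w) r) = (∑ r, y r * lw f L (ψ i) π s (chi θ) k c w r) +
          ∑ r, y r * lw f L (ψ i) π s (chi θ') k c w r := by
        rw [← Finset.sum_add_distrib]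
        exact Finset.sum_congr rfl fun r _ => by rw [Pi.add_apply, mul_add]
      rw [h4, trn_add, ← h1.2 g y hg hgy, ← h2.2 g y hg hgy, kk_chi_add, kk_val]
  change (∑ r, lw f L (ψ i) π s (chi (θ + θ')) k c w r * u r) =
    (∑ r, lw f L (ψ i) π s (chi θ) k c w r * u r) + ∑ r, lw f L (ψ i) π s (chi θ') k c w r * u r
  rw [h3, ← Finset.sum_add_distrib]
  exact Finset.sum_congr rfl fun r _ => by rw [Pi.add_apply, add_mul]

/-- **The characters are determined by their trace functionals.** Proof: all components of `lw` are `0` (`u = Pi.single r 1`), so `chi θ` is `0` at the generators of `Dr s ⊥` (`dr_cyv`: `h = π ^ s g`, `lw_spec`, `trn 0 = 0`, a number `< p` with value `0` in `L.κ` is `0`: `rb_zero` in `Gy/Rb.lean`), so on `Vl s` (the elements of `ratEq` are in `Vl (s + 1)`); `QuotientAddGroup` induction. -/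
theorem ew_inj (hy : Hyt f L π k) (hψ : ∀ i, Pj f L (ψ i)) (hc : Cvr f L ψ) (hs : 2 ≤ s)
    {θ : Gr f L π s →+ ZMod L.p} (h : ew ψ k θ = 0) : θ = 0 := by
  classical
  have : Fact L.p.Prime := ⟨L.pp⟩
  have : CharP L.κ L.p := L.char_κ
  have hχ := chi_ch hy.uf θ
  have h0 : ∀ (i : Fin m) (n : ℕ) (c : Fin (d + 1) → Ω) (w : Ω), n ≠ 0 → k ∣ n →
      Gp L (ψ i) (L.Ur ⊥ n) c w → lw f L (ψ i) π s (chi θ) k c w = 0 := by
    intro i n c w hn hkn hG
    funext r
    have h1 := congrFun h ⟨((i, Pi.single r 1), (c, w)), n, hn, hkn, hG⟩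
    change (∑ r', lw f L (ψ i) π s (chi θ) k c w r' *
      (Pi.single r 1 : Fin (d + 1) → L.κ) r') = 0 at h1
    rw [Finset.sum_eq_single r, Pi.single_eq_same, mul_one] at h1
    · exact h1
    · intro r' _ hr
      rw [Pi.single_eq_of_ne hr, mul_zero]
    · intro hr
      exact absurd (Finset.mem_univ r) hr
  obtain ⟨Θ, hΘ⟩ : ∃ Θ : Vl f L π s →+ ZMod L.p, Θ = θ.comp (QuotientAddGroup.mk' _) := ⟨_, rfl⟩
  have hΘ' : ∀ (z : (Xf f).pt Ω →₀ ℤ) (hz : z ∈ Vl f L π s), Θ ⟨z, hz⟩ = chi θ z := by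
    intro z hz
    rw [hΘ, chi, dif_pos hz]
    rfl
  have h2 : Vl f L π s ≤ Θ.ker.map (Vl f L π s).subtype := by
    refine sup_le ((dr_cyv hy.hm hψ hc hy.uf (by omega) hy.rf).trans ?_) fun z hz => ?_
    · rw [AddSubgroup.closure_le]
      rintro z ⟨i, n, c, w, v, hn, hkn, hG, hv, hv1, rfl⟩
      have hM : Um L (L.Ur ⊥ n) := ⟨n, hn, le_rfl⟩
      have hm := vl_dr s (cyv_dr (f := f) hy.uf (hψ i) hM hG hv (by omega) hv1)
      refine ⟨⟨_, hm⟩, ?_, rfl⟩
      have hπ0 : π ≠ 0 := fun h5 => by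
        have h6 := hy.uf.pos
        rw [h5, L.zero] at h6
        exact lt_irrefl _ h6
      have hπs : π ^ s ≠ 0 := pow_ne_zero s hπ0
      have hps : 0 < L.nm π ^ s := pow_pos hy.uf.pos s
      obtain ⟨g, hg⟩ : ∃ g : Fin (d + 1) → Ω, ∀ r, π ^ s * g r = v r :=
        ⟨fun r => v r / π ^ s, fun r => mul_div_cancel₀ _ hπs⟩
      have hgv : v = π ^ s • g := funext fun r => by rw [Pi.smul_apply, smul_eq_mul, hg]
      have hg1 : Iv L (L.Ur ⊥ n) g := by
        intro r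
        refine ⟨?_, ?_⟩
        · have h6 : g r = v r / π ^ s := by rw [← hg r, mul_div_cancel_left₀ _ hπs]
          rw [h6]
          exact div_mem (hv r).1 (pow_mem (hy.uf.mem _) s)
        · have h6 := hv1 r
          rw [← hg r, L.mul, L.pow] at h6
          exact le_of_mul_le_mul_left (by rwa [mul_one]) hps
      have h6 := (lw_spec hy (hψ i) hχ hs hn hkn hG).2 g (fun r => rv L (g r)) hg1
        fun r => rv_hv L (hg1 r).2
      have h7 : (∑ r, rv L (g r) * lw f L (ψ i) π s (chi θ) k c w r) = 0 := by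
        rw [h0 i n c w hn hkn hG]
        exact Finset.sum_eq_zero fun r _ => by rw [Pi.zero_apply, mul_zero]
      have h8 : trn L.p n (0 : L.κ) = 0 := by
        unfold trn
        exact Finset.sum_eq_zero fun i _ => zero_pow (pow_ne_zero i L.pp.ne_zero)
      rw [h7, h8, ← hgv] at h6
      change Θ ⟨_, hm⟩ = 0
      rw [hΘ']
      exact kk_zero h6
    · refine ⟨⟨z, vl_rat s hz⟩, ?_, rfl⟩
      change Θ ⟨z, _⟩ = 0
      rw [hΘ']
      exact hχ.zero z (vl_rat (s + 1) hz)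
  refine AddMonoidHom.ext fun q => ?_
  obtain ⟨⟨z, hz⟩, rfl⟩ := QuotientAddGroup.mk_surjective q
  obtain ⟨⟨z', hz'⟩, h3, h4⟩ := h2 hz
  have h5 : z' = z := h4
  subst h5
  change Θ ⟨z', hz'⟩ = 0 at h3
  rw [hΘ] at h3
  exact h3

end Kt

end GX
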