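import Pool.Agent.Lib.MP_f80667_ag.Lv.Kk3
import Pool.Agent.Lib.MP_f80667_ag.Kt.Kk
import Pool.Agent.Lib.MP_f80667_ag.Kt.Kk1
import Pool.Agent.Lib.MP_f80667_ag.Kt.Kk2

/-! The graded pieces are finite. -/

open ZC BE PE CV IntermediateField

namespace GX

variable {F : Type} [Field F] {N d m : ℕ} {ι : Type} {f : ι → MvPolynomial (Fin N) F}
  {K Ω : Type} [Field K] [CharZero K] [Field Ω] [Algebra K Ω] [Algebra F K] [Algebra F Ω]
  [IsScalarTower F K Ω] [IsAlgClosure K Ω] {L : Ld K Ω} {ψ : Fin m → Prj K N d} {π : Ω}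
  {k s : ℕ}

/-- **The graded pieces are finite.** Proof: `ew` as an injective additive map (`ew_add`, `ew_inj`) from the characters; `dc_card` for its range (`ew_frob`, `ew_dep`; `L.κ` algebraically closed of characteristic `p`): finitely many characters; `du_card'` of `Gy/Rb.lean` or `du_card` of `Gy/Dc.lean` (`p • x = 0`: `vl_mul_one`, `AddCommGroup.zmodModule`,
`AddMonoidHom.toZModLinearMap`): the graded piece is finite; `AddSubgroup.relIndex`, `AddSubgroup.index` is `Nat.card` of the quotient. -/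
theorem Kt.gr_fin (hy : Kt.Hyt f L π k) (hψ : ∀ i, Pj f L (ψ i)) (hc : Cvr f L ψ) (hs : 2 ≤ s) :
    (Vl f L π (s + 1)).relIndex (Vl f L π s) ≠ 0 := by
  have : Fact L.p.Prime := ⟨L.pp⟩
  have : CharP L.κ L.p := L.char_κ
  have : IsAlgClosed Ω := IsAlgClosure.isAlgClosed K
  have : IsAlgClosed L.κ := L.κ_closed
  obtain ⟨φ, hφ⟩ := Kt.ew_frob (s := s) hy hψ hs
  obtain ⟨g, hg⟩ := Kt.ew_dep (s := s) hy hψ hs
  let e : (Gr f L π s →+ ZMod L.p) →+ (Xw L ψ k → L.κ) :=
    AddMonoidHom.mk' (fun θ => ew ψ k θ) fun θ θ' => Kt.ew_add hy hψ hs θ θ'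
  have he : Function.Injective e := by
    rw [injective_iff_map_eq_zero]
    intro θ hθ
    exact Kt.ew_inj hy hψ hc hs hθ
  obtain ⟨h2, h3⟩ := dc_card (p := L.p) hy.rf.ne (φ := φ) (g := g) e.range (by
    rintro _ ⟨θ, rfl⟩ z
    exact hφ θ z) (by
    intro e' he' hli
    choose θ hθ using he'
    obtain ⟨η, hη, hz⟩ := hg θ
    refine hη (funext fun i => Fintype.linearIndependent_iff.1 hli η (funext fun z => ?_) i)
    rw [Finset.sum_apply, Pi.zero_apply, ← hz z]
    refine Finset.sum_congr rfl fun l _ => ?_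
    rw [Pi.smul_apply, smul_eq_mul, ← hθ l]
    rfl)
  have e1 := e.ofInjective he
  have h4 : Finite (Gr f L π s) ∧ Nat.card (Gr f L π s) ≤ (L.p ^ k) ^ g := by
    refine du_card' (p := L.p) (fun x => ?_) (Finite.of_equiv _ e1.symm.toEquiv) ?_
    · induction x using QuotientAddGroup.induction_on with
      | H x =>
        rw [← QuotientAddGroup.mk_nsmul, QuotientAddGroup.eq_zero_iff,
          AddSubgroup.mem_addSubgroupOf, AddSubgroup.coe_nsmul]
        exact vl_mul_one hy.uf hy.hm hψ hc (by omega) x.2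
    · rw [Nat.card_congr e1.toEquiv]
      exact h3
  have h5 := h4.1
  have h6 : (Vl f L π (s + 1)).relIndex (Vl f L π s) = Nat.card (Gr f L π s) := rfl
  rw [h6]
  exact Nat.card_pos.ne'

/-- **The graded pieces of level `≥ 2` are finite**, for every residue characteristic. -/
theorem gr_fin2 (hf : Hm f) (hπ : Uf L π) (hψ : ∀ i, Pj f L (ψ i))
    (hc : Cvr f L ψ) (hs : 2 ≤ s) : (Vl f L π (s + 1)).relIndex (Vl f L π s) ≠ 0 := by
  have hac : IsAlgClosed Ω := IsAlgClosure.isAlgClosed K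
  obtain ⟨φ, q, hφ⟩ := exists_frob L.toLf (⊥ : IntermediateField K Ω)
  obtain ⟨k, hk, hq, -⟩ := Ld.frob_q hφ
  rw [hq] at hφ
  obtain ⟨h3, h4⟩ := Ld.frob_te hφ
  have hr : L.Rf ⊥ k := ⟨hk, sup_le le_rfl (adjoin_le_iff.2 fun z hz => h4 z hz), h3⟩
  exact Kt.gr_fin ⟨hf, hπ, hr⟩ hψ hc hs

end GX
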