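import Pool.Agent.Lib.MP_f80667_ag.Ep.Yd1
import Pool.Agent.Lib.MP_f80667_ag.Ng.W

/-!
A ramified extension of prime degree.

* `rm_deg`: the degree of `M (ϖ)` over an unramified field `M`, `ϖ ^ l` the uniformizer.
* `exists_rm`: the field `E = K (ϖ)`.
-/

open ZC BE PE CV IntermediateField Polynomial

namespace GX

variable {K Ω : Type} [Field K] [CharZero K] [Field Ω] [Algebra K Ω] [IsAlgClosure K Ω]
  {L : Ld K Ω} {π : Ω}

private theorem m1_root (hπ : Uf L π) {M : IntermediateField K Ω} (hM : Um L M) {l : ℕ}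
    (hl : 2 ≤ l) {b : Ω} (hb : b ∈ M) : b ^ l ≠ π := by
  intro h
  have hb0 : b ≠ 0 := by
    rintro rfl
    rw [zero_pow (by omega)] at h
    exact hπ.ne h.symm
  obtain ⟨n, hn⟩ := hπ.um_val hM b hb hb0
  have h1 : L.nm π ^ (n * l) = L.nm π ^ (1 : ℤ) := by
    rw [zpow_mul, ← hn, zpow_natCast, ← L.pow, h, zpow_one]
  have h2 : n * (l : ℤ) = 1 := zpow_right_injective₀ hπ.pos hπ.lt.ne h1
  have h3 : (l : ℤ) ∣ ((1 : ℕ) : ℤ) := ⟨n, by rw [Nat.cast_one, mul_comm]; exact h2.symm⟩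
  have h4 := Nat.dvd_one.1 (Int.natCast_dvd_natCast.1 h3)
  omega

/-- **The degree.** -/
theorem rm_deg (hπ : Uf L π) {M : IntermediateField K Ω} (hM : Um L M) {l : ℕ} (hl : l.Prime)
    {ϖ : Ω} (h : ϖ ^ l = π) :
    Module.finrank K (K⟮ϖ⟯ ⊔ M : IntermediateField K Ω) = l * Module.finrank K M := by
  have hfd : FiniteDimensional K M := hM.fd
  have hπM : π ∈ M := hπ.mem M
  have hmon : (X ^ l - C (⟨π, hπM⟩ : M)).Monic := monic_X_pow_sub_C _ hl.ne_zero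
  have hroot : aeval ϖ (X ^ l - C (⟨π, hπM⟩ : M)) = 0 := by
    rw [map_sub, map_pow, aeval_X, aeval_C, h]
    exact sub_self _
  have hirr : Irreducible (X ^ l - C (⟨π, hπM⟩ : M)) := by
    refine X_pow_sub_C_irreducible_of_prime hl fun b hb => ?_
    exact m1_root hπ hM hl.two_le b.2 (by
      have h1 := congrArg (algebraMap M Ω) hb
      rw [map_pow] at h1
      exact h1)
  have hmin := minpoly.eq_of_irreducible_of_monic hirr hroot hmon
  have hint : IsIntegral M ϖ := ⟨_, hmon, hroot⟩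
  have h1 : Module.finrank M M⟮ϖ⟯ = l := by
    rw [IntermediateField.adjoin.finrank hint, ← hmin, natDegree_X_pow_sub_C]
  have h2 : (K⟮ϖ⟯ ⊔ M : IntermediateField K Ω) = M⟮ϖ⟯.restrictScalars K := by
    rw [IntermediateField.restrictScalars_adjoin_eq_sup, sup_comm]
  rw [h2]
  have h3 := Module.finrank_mul_finrank K M M⟮ϖ⟯
  rw [h1, mul_comm] at h3
  exact h3.symm

/-- **The extension of degree `l`.** -/
theorem exists_rm (hπ : Uf L π) {l : ℕ} (hl : l.Prime) :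
    ∃ (E : IntermediateField K Ω) (_ : FiniteDimensional K E), (∃ ϖ : Ω, Uf (xt L E) ϖ ∧
      L.nm π ≤ L.nm ϖ ^ 2) ∧ ∀ M : IntermediateField K Ω, Um L M →
        Module.finrank K (E ⊔ M : IntermediateField K Ω) = l * Module.finrank K M := by
  have hac : IsAlgClosed Ω := IsAlgClosure.isAlgClosed K
  have halg : Algebra.IsAlgebraic K Ω := IsAlgClosure.isAlgebraic
  obtain ⟨ϖ, hϖ⟩ := IsAlgClosed.exists_pow_nat_eq π hl.pos
  have hfd : FiniteDimensional K K⟮ϖ⟯ :=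
    IntermediateField.adjoin.finiteDimensional (Algebra.IsIntegral.isIntegral ϖ)
  obtain ⟨ϖ', hu⟩ := exists_uf (xt L K⟮ϖ⟯)
  refine ⟨K⟮ϖ⟯, hfd, ⟨ϖ', hu, ?_⟩, fun M hM => rm_deg hπ hM hl hϖ⟩
  have h1 : L.nm ϖ ^ l = L.nm π := by rw [← L.pow, hϖ]
  have h0 : 0 ≤ L.nm ϖ := L.nonneg ϖ
  have h2 : L.nm ϖ < 1 := by
    by_contra h3
    have h4 := one_le_pow₀ (not_lt.1 h3) (n := l)
    rw [h1] at h4
    exact absurd hπ.lt (not_lt.2 h4)
  have h3 : ϖ ≠ 0 := by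
    rintro rfl
    rw [zero_pow hl.ne_zero] at hϖ
    exact hπ.ne hϖ.symm
  have hmem : ϖ ∈ K⟮ϖ⟯ := IntermediateField.mem_adjoin_simple_self K ϖ
  obtain ⟨n, hn⟩ := hu.val ⟨ϖ, hmem⟩ (by
    intro h4
    exact h3 (congrArg Subtype.val h4))
  have hn' : L.nm ϖ = L.nm ϖ' ^ n := hn
  have hup : 0 < L.nm ϖ' := hu.pos
  have hul : L.nm ϖ' < 1 := hu.lt
  have h5 : 1 ≤ n := by
    by_contra h6
    have h7 := one_le_zpow_of_nonpos₀ hup hul.le (by omega : n ≤ 0)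
    rw [← hn'] at h7
    exact absurd h2 (not_lt.2 h7)
  have h6 : L.nm ϖ ≤ L.nm ϖ' := by
    rw [hn']
    calc L.nm ϖ' ^ n ≤ L.nm ϖ' ^ (1 : ℤ) :=
          (zpow_le_zpow_iff_right_of_lt_one₀ hup hul).2 h5
      _ = L.nm ϖ' := zpow_one _
  calc L.nm π = L.nm ϖ ^ l := h1.symm
    _ ≤ L.nm ϖ ^ 2 := pow_le_pow_of_le_one h0 h2.le hl.two_le
    _ ≤ L.nm ϖ' ^ 2 := pow_le_pow_left₀ h0 h6 2

end GX
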