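import Pool.Agent.Lib.MP_f80667_ag.Kt.M2
import Pool.Agent.Lib.MP_f80667_ag.Ng.Rb

/-! Projections over a finite extension. -/

open ZC BE PE CV IntermediateField

namespace GX

section base

variable {F F' M Ω : Type} [Field F] [Field F'] [Field M] [Field Ω] [Algebra F F'] [Algebra F M]
  [Algebra F' M] [Algebra M Ω] [Algebra F Ω] [Algebra F' Ω] [IsScalarTower F M Ω]
  [IsScalarTower F' M Ω] [IsScalarTower F F' Ω] [IsScalarTower F F' M] {N d m : ℕ} {ι : Type}
  {f : ι → MvPolynomial (Fin N) F}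

/-- Change of the field of the equations. -/
theorem pj_base2 {L : Ld M Ω} {ψ : Prj M N d} (hom : ∀ i, ∃ e, (f i).IsHomogeneous e)
    (h : Pj (fun i => MvPolynomial.map (algebraMap F F') (f i)) L ψ) : Pj f L ψ := by
  have e : ∀ (x : Fin N → Ω) i, MvPolynomial.aeval x (MvPolynomial.map (algebraMap F F') (f i)) =
      MvPolynomial.aeval x (f i) := fun x i => MvPolynomial.aeval_map_algebraMap F' x (f i)
  refine ⟨h.iu, h.iy, h.iG, h.iD, h.iA, hom, h.mon, h.homG, h.homD, h.bez, ?_, ?_, h.inu, h.iny,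
    ?_, ?_⟩
  · intro x hx h0
    exact h.onX x hx fun i => (e x i).trans (h0 i)
  · obtain ⟨s, hs⟩ := h.inX
    refine ⟨s, fun i => ?_⟩
    have h1 := hs i
    rw [MvPolynomial.aeval_map_algebraMap] at h1
    exact h1
  · have h1 := h.ok
    have e2 : (fun i => MvPolynomial.map (algebraMap F' Ω)
        (MvPolynomial.map (algebraMap F F') (f i))) =
        fun i => MvPolynomial.map (algebraMap F Ω) (f i) := funext fun i => by
      rw [MvPolynomial.map_map, ← IsScalarTower.algebraMap_eq F F' Ω]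
    rw [e2] at h1
    exact h1
  · intro x hx hk h0
    exact h.onR x hx hk fun i => by
      rw [e x i]
      exact h0 i

omit [Algebra F M] [Algebra F' M] [IsScalarTower F M Ω] [IsScalarTower F' M Ω]
  [IsScalarTower F F' M] in
theorem cvr_base2 {L : Ld M Ω} {ψ : Fin m → Prj M N d}
    (h : Cvr (fun i => MvPolynomial.map (algebraMap F F') (f i)) L ψ) : Cvr f L ψ := by
  intro x hx hk h0
  refine h x hx hk fun i => ?_
  have e : MvPolynomial.aeval x (MvPolynomial.map (algebraMap F F') (f i)) =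
      MvPolynomial.aeval x (f i) := MvPolynomial.aeval_map_algebraMap F' x (f i)
  rw [e]
  exact h0 i

end base

section loc

variable {F : Type} [Field F] {N d m : ℕ} {ι : Type} {f : ι → MvPolynomial (Fin N) F}
  {K Ω : Type} [Field K] [CharZero K] [Field Ω] [Algebra K Ω] [Algebra F K] [Algebra F Ω]
  [IsScalarTower F K Ω] [IsAlgClosure K Ω] {L : Ld K Ω}

/-- **Projections over a finite extension.** -/
theorem Dat.pj_xt {ψ : Fin m → Prj K N d}
    {f₀ : ι → MvPolynomial (Fin N) (L.V.comap (algebraMap K Ω))}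
    {ψ₀ : Fin m → Prj (L.V.comap (algebraMap K Ω)) N d} (hom : ∀ i, ∃ e, (f i).IsHomogeneous e)
    (h : Dat L.V (fun i => MvPolynomial.map (algebraMap F K) (f i)) ψ f₀ ψ₀)
    (E : IntermediateField K Ω) [FiniteDimensional K E] :
    (∀ i, Pj f (xt L E) ((ψ i).map (algebraMap K E))) ∧
      Cvr f (xt L E) fun i => (ψ i).map (algebraMap K E) := by
  have hcl : IsAlgClosure E Ω := yd_ac E
  have hd : Dat (xt L E).V (fun i => MvPolynomial.map (algebraMap F K) (f i)) ψ f₀ ψ₀ := h
  exact ⟨fun i => pj_base2 hom (hd.pj (K := E) i), cvr_base2 (hd.cvr (K := E))⟩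

end loc

end GX
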