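import Pool.Agent.Lib.MP_f80667_ag.Kt.Kk3
import Pool.Agent.Lib.MP_f80667_ag.Kt.M3
import Pool.Agent.Lib.MP_f80667_ag.Ep.Q3

/-!
The cycles with reduction `0` modulo the cycles which are `0` modulo `a`, at a place of good reduction, for every residue characteristic.

* `rfa_of2`: with projections over `K`.
-/

open ZC BE PE CV IntermediateField

namespace GX

variable {F : Type} [Field F] {N d m : ℕ} {ι : Type} {K Ω : Type}
  [Field K] [CharZero K] [Field Ω] [Algebra K Ω] [Algebra F K] [Algebra F Ω]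
  [IsScalarTower F K Ω] [IsAlgClosure K Ω] {f : ι → MvPolynomial (Fin N) F} {L : Ld K Ω} {π a : Ω}

theorem m4_cyc (M : IntermediateField K Ω) [FiniteDimensional K M]
    {z : (Xf f).pt Ω →₀ ℤ} (hz : z ∈ (Xf f).cyc M Ω) :
    GM.nmh (Xf f) M z ∈ (Xf f).cyc K Ω := by
  rw [GM.nmh_apply, GM.cyc_iff]
  exact nm_fx bot_le (fx_cyc'.2 hz)

theorem m4_rat (M : IntermediateField K Ω) [FiniteDimensional K M]
    {z : (Xf f).pt Ω →₀ ℤ} (hz : z ∈ (Xf f).cyc M Ω) (h : z ∈ (Xf f).ratEq M Ω) :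
    GM.nmh (Xf f) M z ∈ (Xf f).ratEq K Ω := by
  rw [GM.nmh_apply]
  exact nm_ratEq h (fx_cyc'.2 hz)

theorem m4_zra (hf : Hm f) (ha : a ≠ 0) (ha1 : L.nm a < 1) (M : IntermediateField K Ω)
    [FiniteDimensional K M] {z : (Xf f).pt Ω →₀ ℤ} (h : Zra f L.V a z) :
    Zra f L.V a (GM.nmh (Xf f) M z) := by
  rw [zra_iff ha] at h ⊢
  rw [GM.nmh_apply]
  exact h.nm hf (L.nonneg a) ha1

/-- The displacements of a small level are `0` modulo `a`. -/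
theorem m4_dz (hf : Hm f) (ha : a ≠ 0) (ha1 : L.nm a < 1) {r : ℕ}
    (hr : L.nm π ^ r ≤ L.nm a) {z : (Xf f).pt Ω →₀ ℤ}
    (hz : z ∈ Dr f L π r (⊥ : IntermediateField K Ω)) :
    z ∈ (Xf f).cyc K Ω ∧ Zra f L.V a z := by
  obtain ⟨h1, h2⟩ := dcy_zrt hf (L.pos ha).le ha1 (dr_dcy hr hz)
  exact ⟨h1, (zra_iff ha).2 h2⟩

/-- The power of `p`. -/
theorem m4_pk (hπ : Uf L π) (hf : Hm f) {ψ : Fin m → Prj K N d}
    (hψ : ∀ i, Pj f L (ψ i)) (hc : Cvr f L ψ) (ha : a ≠ 0) (ha1 : L.nm a < 1) :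
    ∃ k : ℕ, ∀ z ∈ (Xf f).cyc K Ω, Zrd f L.V z → ∃ u ∈ (Xf f).cyc K Ω, Zra f L.V a u ∧
      L.p ^ k • z - u ∈ (Xf f).ratEq K Ω := by
  obtain ⟨r, hr⟩ : ∃ r : ℕ, L.nm π ^ (r + 1) ≤ L.nm a := by
    obtain ⟨r, h⟩ := exists_pow_lt_of_lt_one (L.pos ha) hπ.lt
    exact ⟨r, (pow_le_pow_of_le_one hπ.pos.le hπ.lt.le (Nat.le_succ r)).trans h.le⟩
  refine ⟨r, fun z hz h0 => ?_⟩
  have h1 : ∀ n : ℕ, L.p ^ n • z ∈ Vl f L π (n + 1) := by
    intro n
    induction n with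
    | zero =>
      rw [pow_zero, one_smul, zero_add]
      exact hπ.x_zr hf hψ hc hz (zrd_iff.1 h0)
    | succ n ih =>
      rw [pow_succ', mul_smul]
      exact vl_mul_one hπ hf hψ hc (Nat.succ_ne_zero n) ih
  obtain ⟨b, hb, c, hc', h2⟩ := AddSubgroup.mem_sup.1 (h1 r)
  obtain ⟨h3, h4⟩ := m4_dz hf ha ha1 hr hb
  exact ⟨b, h3, h4, by rw [← h2, add_sub_cancel_left]; exact hc'⟩

/-- **Finitely many classes**, for every residue characteristic. -/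
theorem rfa_of2 (hπ : Uf L π) (hf : Hm f) {ψ : Fin m → Prj K N d} (hψ : ∀ i, Pj f L (ψ i))
    (hc : Cvr f L ψ)
    (hP : ∀ (E : IntermediateField K Ω) [FiniteDimensional K E],
      (∀ i, Pj f (xt L E) ((ψ i).map (algebraMap K E))) ∧
        Cvr f (xt L E) fun i => (ψ i).map (algebraMap K E))
    (ha : a ≠ 0) (ha1 : L.nm a < 1) : Rfa f L.V K a L.p := by
  classical
  -- the power of `p` and the prime `l`
  obtain ⟨k, hk⟩ := m4_pk hπ hf hψ hc ha ha1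
  obtain ⟨l, hl, hlp⟩ : ∃ l : ℕ, l.Prime ∧ l ≠ L.p := by
    by_cases h : L.p = 2
    · exact ⟨3, Nat.prime_three, by rw [h]; norm_num⟩
    · exact ⟨2, Nat.prime_two, fun h' => h h'.symm⟩
  have hco : l.Coprime (L.p ^ k) := Nat.Coprime.pow_right k ((Nat.coprime_primes hl L.pp).2 hlp)
  obtain ⟨x, y, hxy⟩ : ∃ x y : ℤ, x * l + y * (L.p ^ k : ℕ) = 1 :=
    Nat.isCoprime_iff_coprime.2 hco
  -- the ramified extension
  obtain ⟨E, hfd, ⟨ϖ, hu, h2⟩, hd⟩ := exists_rm hπ hl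
  have hcl : IsAlgClosure E Ω := yd_ac E
  obtain ⟨hψ', hc'⟩ := hP E
  obtain ⟨r, hr⟩ : ∃ r : ℕ, (xt L E).nm ϖ ^ (r + 2) ≤ (xt L E).nm a := by
    obtain ⟨r, h⟩ := exists_pow_lt_of_lt_one (L.pos ha) hu.lt
    exact ⟨r, (pow_le_pow_of_le_one hu.pos.le hu.lt.le (by omega)).trans h.le⟩
  have hrel : ∀ n : ℕ, (Vl f (xt L E) ϖ (n + 2)).relIndex (Vl f (xt L E) ϖ 2) ≠ 0 := by
    intro n
    induction n with
    | zero => rw [zero_add, AddSubgroup.relIndex_self]; exact one_ne_zero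
    | succ n ih =>
      have h1 := gr_fin2 (s := n + 2) hf hu hψ' hc' (by omega)
      have h3 : n + 2 + 1 = n + 1 + 2 := by omega
      rw [h3] at h1
      exact AddSubgroup.relIndex_ne_zero_trans h1 ih
  obtain ⟨E₀, hE1, hE2⟩ := exists_reps (hrel r)
  have hdz : ∀ {s : ℕ}, s ≠ 0 → ∀ z ∈ Dr f (xt L E) ϖ s (⊥ : IntermediateField E Ω),
      z ∈ (Xf f).cyc E Ω := fun {s} hs z hz => GM.cyc_iff.2 (dr_fx hz)
  have key : ∀ b : (Xf f).pt Ω →₀ ℤ, ∃ c ∈ (Xf f).cyc E Ω, b ∈ Vl f (xt L E) ϖ 2 →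
      b - c ∈ (Xf f).ratEq E Ω := by
    intro b
    by_cases hb : b ∈ Vl f (xt L E) ϖ 2
    · obtain ⟨c, hc, c', hc', rfl⟩ := AddSubgroup.mem_sup.1 hb
      exact ⟨c, hdz two_ne_zero c hc, fun _ => by rw [add_sub_cancel_left]; exact hc'⟩
    · exact ⟨0, zero_mem _, fun h => absurd h hb⟩
  choose g g1 g2 using key
  have hone : ∀ z : (Xf f).pt Ω →₀ ℤ, x • (l • z) + y • (L.p ^ k • z) = z := fun z => by
    rw [← natCast_zsmul, ← natCast_zsmul, smul_smul, smul_smul, ← add_smul, hxy, one_smul]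
  have hZ : ∀ {v w : (Xf f).pt Ω →₀ ℤ}, Zra f L.V a v → Zra f L.V a w →
      Zra f L.V a (x • v + y • w) := fun {v w} hv hw => by
    rw [zra_iff ha] at hv hw ⊢
    exact (hv.zsmul x).add (hw.zsmul y)
  refine ⟨⟨E₀.image fun e => x • GM.nmh (Xf f) E (g e), fun e he => ?_, fun z hz h0 => ?_⟩,
    k, hk⟩
  · obtain ⟨b, -, rfl⟩ := Finset.mem_image.1 he
    exact zsmul_mem (m4_cyc E (g1 b)) x
  · obtain ⟨b, hb, c, hcr, hbc⟩ := AddSubgroup.mem_sup.1 (hπ.x_zr hf hψ hc hz (zrd_iff.1 h0))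
    obtain ⟨w, hw, hwb⟩ := dr_rm h2 hd hb
    obtain ⟨e, he, h3⟩ := hE2 w (vl_dr 2 hw)
    obtain ⟨u, hu', c', hcr', h4⟩ := AddSubgroup.mem_sup.1 h3
    obtain ⟨h5, h6⟩ := m4_dz (L := xt L E) hf ha ha1 hr hu'
    have h7 := g2 e (hE1 e he)
    have h8 : w - g e - u ∈ (Xf f).ratEq E Ω := by
      have e1 : w - g e - u = c' + (e - g e) := by
        have h9 : c' = w - e - u := by rw [← h4]; abel
        rw [h9]
        abel
      rw [e1]
      exact add_mem hcr' h7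
    have h9 := m4_rat E (sub_mem (sub_mem (hdz two_ne_zero w hw) (g1 e)) h5) h8
    rw [map_sub, map_sub, hwb] at h9
    obtain ⟨u₁, n1, n2, n3⟩ := hk z hz h0
    refine ⟨_, Finset.mem_image.2 ⟨e, he, rfl⟩, x • GM.nmh (Xf f) E u + y • u₁,
      add_mem (zsmul_mem (m4_cyc E h5) x) (zsmul_mem n1 y), hZ (m4_zra hf ha ha1 E h6) n2, ?_⟩
    have h10 := add_mem (add_mem (zsmul_mem h9 x) (zsmul_mem n3 y))
      (zsmul_mem (nsmul_mem hcr l) x)
    have e2 : z - x • GM.nmh (Xf f) E (g e) - (x • GM.nmh (Xf f) E u + y • u₁) =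
        x • (l • b - GM.nmh (Xf f) E (g e) - GM.nmh (Xf f) E u) + y • (L.p ^ k • z - u₁) +
          x • (l • c) := by
      calc z - x • GM.nmh (Xf f) E (g e) - (x • GM.nmh (Xf f) E u + y • u₁)
          = (x • (l • z) + y • (L.p ^ k • z)) - x • GM.nmh (Xf f) E (g e) -
              (x • GM.nmh (Xf f) E u + y • u₁) := by rw [hone z]
        _ = (x • (l • (b + c)) + y • (L.p ^ k • z)) - x • GM.nmh (Xf f) E (g e) -
              (x • GM.nmh (Xf f) E u + y • u₁) := by rw [hbc]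
        _ = _ := by module
    rw [e2]
    exact h10

end GX
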