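import Pool.Agent.Lib.MP_f80667_ag.Kt.M4
import Pool.Agent.Lib.MP_f80667_ag.Lv.Fm
import Pool.Agent.Lib.MP_f80667_ag.Lv.Fs

/-!
The graded pieces and the cycles with reduction `0` modulo `n`, for every residue characteristic.

* `gr_all`: the graded pieces of level `≥ 1` are finite.
* `zr_cbk2`: the cycles with reduction `0` modulo `n` are finite in number.
-/

open ZC BE PE CV IntermediateField

namespace GX

/-- From representatives to the index. -/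
theorem relIndex_reps {A : Type*} [AddCommGroup A] {R T : AddSubgroup A} {E : Finset A}
    (h : ∀ t ∈ T, ∃ e ∈ E, t - e ∈ R) : R.relIndex T ≠ 0 := by
  classical
  choose g hg using fun t : T => h t t.2
  have hfin : Finite (T ⧸ R.addSubgroupOf T) := by
    refine Finite.of_injective (fun q : T ⧸ R.addSubgroupOf T =>
      (⟨g q.out, (hg q.out).1⟩ : {e // e ∈ E})) fun q q' hq => ?_
    have h1 : g q.out = g q'.out := congrArg Subtype.val hq
    have h2 := (hg q.out).2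
    have h3 := (hg q'.out).2
    rw [h1] at h2
    have h4 : (QuotientAddGroup.mk q.out : T ⧸ R.addSubgroupOf T) = QuotientAddGroup.mk q'.out := by
      rw [QuotientAddGroup.eq, AddSubgroup.mem_addSubgroupOf]
      have h5 := sub_mem h3 h2
      have e1 : ((-q.out + q'.out : T) : A) = ((q'.out : T) : A) - g q'.out -
          (((q.out : T) : A) - g q'.out) := by
        push_cast
        abel
      rw [e1]
      exact h5
    rw [← q.out_eq, ← q'.out_eq]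
    exact h4
  exact (Nat.card_pos (α := T ⧸ R.addSubgroupOf T)).ne'

variable {F : Type} [Field F] {N d m : ℕ} {ι : Type} {K Ω : Type}
  [Field K] [CharZero K] [Field Ω] [Algebra K Ω] [Algebra F K] [Algebra F Ω]
  [IsScalarTower F K Ω] [IsAlgClosure K Ω] {f : ι → MvPolynomial (Fin N) F} {L : Ld K Ω} {π : Ω}

/-- **Level `1`.** -/
private theorem m6_one (hπ : Uf L π) (hf : Hm f) {ψ : Fin m → Prj K N d}
    (hψ : ∀ i, Pj f L (ψ i)) (hc : Cvr f L ψ)
    (hP : ∀ (E : IntermediateField K Ω) [FiniteDimensional K E],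
      (∀ i, Pj f (xt L E) ((ψ i).map (algebraMap K E))) ∧
        Cvr f (xt L E) fun i => (ψ i).map (algebraMap K E)) :
    (Vl f L π 2).relIndex (Vl f L π 1) ≠ 0 := by
  classical
  -- the prime `l`
  obtain ⟨l, hl, hlp⟩ : ∃ l : ℕ, l.Prime ∧ l ≠ L.p := by
    by_cases h : L.p = 2
    · exact ⟨3, Nat.prime_three, by rw [h]; norm_num⟩
    · exact ⟨2, Nat.prime_two, fun h' => h h'.symm⟩
  obtain ⟨x, y, hxy⟩ : ∃ x y : ℤ, x * l + y * L.p = 1 :=
    Nat.isCoprime_iff_coprime.2 ((Nat.coprime_primes hl L.pp).2 hlp)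
  -- the ramified extension
  obtain ⟨E, hfd, ⟨ϖ, hu, h2⟩, hd⟩ := exists_rm hπ hl
  have hcl : IsAlgClosure E Ω := yd_ac E
  obtain ⟨hψ', hc'⟩ := hP E
  obtain ⟨e, he0, he⟩ := exists_e (L := xt L E) hu
  have hrel : ∀ n : ℕ, (Vl f (xt L E) ϖ (n + 2)).relIndex (Vl f (xt L E) ϖ 2) ≠ 0 := by
    intro n
    induction n with
    | zero => rw [zero_add, AddSubgroup.relIndex_self]; exact one_ne_zero
    | succ n ih =>
      have h1 := gr_fin2 (s := n + 2) hf hu hψ' hc' (by omega)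
      have h3 : n + 2 + 1 = n + 1 + 2 := by omega
      rw [h3] at h1
      exact AddSubgroup.relIndex_ne_zero_trans h1 ih
  have hs : (Vl f (xt L E) ϖ (e + 1 + e)).relIndex (Vl f (xt L E) ϖ 2) ≠ 0 := by
    have h1 := hrel (e + 1 + e - 2)
    rwa [show e + 1 + e - 2 + 2 = e + 1 + e by omega] at h1
  obtain ⟨E₀, hE1, hE2⟩ := exists_reps hs
  have hdz : ∀ {s : ℕ}, ∀ z ∈ Dr f (xt L E) ϖ s (⊥ : IntermediateField E Ω),
      z ∈ (Xf f).cyc E Ω := fun {s} z hz => GM.cyc_iff.2 (dr_fx hz)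
  have key : ∀ b : (Xf f).pt Ω →₀ ℤ, ∃ c ∈ (Xf f).cyc E Ω, b ∈ Vl f (xt L E) ϖ 2 →
      b - c ∈ (Xf f).ratEq E Ω := by
    intro b
    by_cases hb : b ∈ Vl f (xt L E) ϖ 2
    · obtain ⟨c, hc, c', hc', rfl⟩ := AddSubgroup.mem_sup.1 hb
      exact ⟨c, hdz c hc, fun _ => by rw [add_sub_cancel_left]; exact hc'⟩
    · exact ⟨0, zero_mem _, fun h => absurd h hb⟩
  choose g g1 g2 using key
  refine relIndex_reps (E := E₀.image fun e => x • GM.nmh (Xf f) E (g e)) fun z hz => ?_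
  obtain ⟨b, hb, c, hcr, hbc⟩ := AddSubgroup.mem_sup.1 hz
  obtain ⟨w, hw, hwb⟩ := dr_rm h2 hd hb
  obtain ⟨e₀, he1, h3⟩ := hE2 w (vl_dr 2 hw)
  obtain ⟨w', hw', h4⟩ := vl_div_p (L := xt L E) hu hf hψ' hc' he (n := e + 1)
    (by
      have h5 : 1 ≤ (xt L E).p - 1 := Nat.le_sub_one_of_lt L.pp.one_lt
      calc e < 1 * (e + 1) := by omega
        _ ≤ ((xt L E).p - 1) * (e + 1) := Nat.mul_le_mul_right _ h5) h3
  obtain ⟨u, hu', c', hcr', h5⟩ := AddSubgroup.mem_sup.1 hw'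
  have hϖ0 : ϖ ≠ 0 := hu.ne
  have hϖ1 : L.nm ϖ < 1 := hu.lt
  obtain ⟨h6, h7⟩ := m4_dz (L := xt L E) (a := ϖ) (r := e + 1) hf hϖ0 hϖ1
    (by
      have h8 := hu.pow_le (show 1 ≤ e + 1 by omega)
      rwa [pow_one] at h8) hu'
  -- the trace of `u`
  have h8 : Zr f L (GM.nmh (Xf f) E u) :=
    zrt_zr hf (L.nonneg ϖ) hϖ1 ((zra_iff hϖ0).1 (m4_zra hf hϖ0 hϖ1 E h7))
  have h9 : L.p • GM.nmh (Xf f) E u ∈ Vl f L π 2 :=
    vl_mul_one hπ hf hψ hc one_ne_zero (hπ.x_zr hf hψ hc (m4_cyc E h6) h8)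
  have h10 : w - g e₀ - L.p • u ∈ (Xf f).ratEq E Ω := by
    have e1 : w - g e₀ - L.p • u = (w - e₀ - L.p • w') + (e₀ - g e₀) + L.p • c' := by
      rw [← h5, smul_add]
      abel
    rw [e1]
    exact add_mem (add_mem h4 (g2 e₀ (hE1 e₀ he1))) (nsmul_mem hcr' _)
  have h11 := m4_rat E (sub_mem (sub_mem (hdz w hw) (g1 e₀)) (nsmul_mem h6 _)) h10
  rw [map_sub, map_sub, hwb, map_nsmul] at h11
  refine ⟨_, Finset.mem_image.2 ⟨e₀, he1, rfl⟩, ?_⟩
  have h12 : l • z - GM.nmh (Xf f) E (g e₀) ∈ Vl f L π 2 := by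
    have e1 : l • z - GM.nmh (Xf f) E (g e₀) = (l • b - GM.nmh (Xf f) E (g e₀) -
        L.p • GM.nmh (Xf f) E u) + L.p • GM.nmh (Xf f) E u + l • c := by
      rw [← hbc, smul_add]
      abel
    rw [e1]
    exact add_mem (add_mem (vl_rat 2 h11) h9) (vl_rat 2 (nsmul_mem hcr l))
  have h13 : L.p • z ∈ Vl f L π 2 := vl_mul_one hπ hf hψ hc one_ne_zero hz
  have e2 : z - x • GM.nmh (Xf f) E (g e₀) =
      x • (l • z - GM.nmh (Xf f) E (g e₀)) + y • (L.p • z) := by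
    have h14 : x • (l • z) + y • (L.p • z) = z := by
      rw [← natCast_zsmul, ← natCast_zsmul, smul_smul, smul_smul, ← add_smul, hxy, one_smul]
    calc z - x • GM.nmh (Xf f) E (g e₀)
        = (x • (l • z) + y • (L.p • z)) - x • GM.nmh (Xf f) E (g e₀) := by rw [h14]
      _ = _ := by module
  rw [e2]
  exact add_mem (zsmul_mem h12 x) (zsmul_mem h13 y)

/-- **The graded pieces of level `≥ 1` are finite**, for every residue characteristic. -/
theorem gr_all (hπ : Uf L π) (hf : Hm f) {ψ : Fin m → Prj K N d}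
    (hψ : ∀ i, Pj f L (ψ i)) (hc : Cvr f L ψ)
    (hP : ∀ (E : IntermediateField K Ω) [FiniteDimensional K E],
      (∀ i, Pj f (xt L E) ((ψ i).map (algebraMap K E))) ∧
        Cvr f (xt L E) fun i => (ψ i).map (algebraMap K E)) {n : ℕ} (hn : 1 ≤ n) :
    (Vl f L π (n + 1)).relIndex (Vl f L π n) ≠ 0 := by
  rcases Nat.lt_or_ge 1 n with h | h
  · exact gr_fin2 hf hπ hψ hc h
  · obtain rfl : n = 1 := le_antisymm h hn
    exact m6_one hπ hf hψ hc hP

/-- **The classes modulo `n`**, for every residue characteristic. -/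
theorem zr_cbk2 (hπ : Uf L π) (hf : Hm f) {ψ : Fin m → Prj K N d}
    (hψ : ∀ i, Pj f L (ψ i)) (hc : Cvr f L ψ)
    (hfin : ∀ n, 1 ≤ n → (Vl f L π (n + 1)).relIndex (Vl f L π n) ≠ 0) {n : ℕ} (hn : n ≠ 0) :
    ∃ b, Cbk f L.V K n b := by
  classical
  obtain ⟨e, he0, he⟩ := exists_e (L := L) hπ
  obtain ⟨E, hE, hE1, hE2⟩ := fm_fin (p := L.p) (e := e) (s₀ := e + 1)
    (R := (Xf f).ratEq K Ω) L.pp (vl_anti hπ)
    (fun n h0 h1 z hz => vl_div_p hπ hf hψ hc he (by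
      have h5 : 1 ≤ L.p - 1 := Nat.le_sub_one_of_lt L.pp.one_lt
      calc e < 1 * n := by omega
        _ ≤ (L.p - 1) * n := Nat.mul_le_mul_right _ h5) hz)
    (fun l hl hlp n h1 z hz => vl_div_l hπ hf hψ hc hl hlp (by omega) hz) hfin hn
  have hch : ∀ a : ((Xf f).pt Ω →₀ ℤ), ∃ b, a ∈ Vl f L π 1 → b ∈ Dr f L π 1 ⊥ ∧
      a - b ∈ (Xf f).ratEq K Ω := by
    intro a
    by_cases ha : a ∈ Vl f L π 1
    · obtain ⟨b, hb, c, hc, rfl⟩ := AddSubgroup.mem_sup.1 ha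
      exact ⟨b, fun _ => ⟨hb, by rw [add_sub_cancel_left]; exact hc⟩⟩
    · exact ⟨0, fun h => absurd h ha⟩
  choose g hg using hch
  refine ⟨_, hE.toFinset.image g, le_rfl, fun a ha => ?_, fun z hz hz0 => ?_⟩
  · obtain ⟨a, ha', rfl⟩ := Finset.mem_image.1 ha
    obtain ⟨h3, h4⟩ := hπ.x_dr_zr hf (hg a (hE1 (hE.mem_toFinset.1 ha'))).1
    exact ⟨h3, zrd_iff.2 h4⟩
  · obtain ⟨a, ha, w, hw, h1⟩ := hE2 z (hπ.x_zr hf hψ hc hz (zrd_iff.1 hz0))
    obtain ⟨h2, h3⟩ := hg a (hE1 ha)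
    obtain ⟨h4, h5⟩ := hg w hw
    obtain ⟨h6, h7⟩ := hπ.x_dr_zr hf h4
    refine ⟨g a, Finset.mem_image.2 ⟨a, hE.mem_toFinset.2 ha, rfl⟩, g w, h6, zrd_iff.2 h7, ?_⟩
    have e1 : z - g a - n • g w = (z - a - n • w) + (a - g a) + n • (w - g w) := by
      rw [smul_sub]
      abel
    rw [e1]
    exact add_mem (add_mem h1 h3) (AddSubgroup.nsmul_mem _ h5 n)

end GX
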