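import Pool.Agent.Lib.MP_f80667_ag.Kt.M5
import Pool.Agent.Lib.MP_f80667_ag.Kt.M6

/-!
The cycles with reduction `0` modulo `n` at a place of good reduction, for every residue characteristic.

* `Gdv.cbk2`, `cbk_glob2`: finitely many classes.
-/

open ZC BE PE CV IntermediateField IsDedekindDomain NumberField

namespace GX

section loc

variable {F : Type} [Field F] {N d : ℕ} {ι : Type} {f : ι → MvPolynomial (Fin N) F}
  {K Ω : Type} [Field K] [CharZero K] [Field Ω] [Algebra K Ω] [Algebra F K] [Algebra F Ω]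
  [IsScalarTower F K Ω] [IsAlgClosure K Ω] {L : Ld K Ω}

/-- With projections over `K`. -/
private theorem m7_dat (hf : Hm f) {m : ℕ}
    {ψ : Fin m → Prj K N d} {f₀ : ι → MvPolynomial (Fin N) (L.V.comap (algebraMap K Ω))}
    {ψ₀ : Fin m → Prj (L.V.comap (algebraMap K Ω)) N d}
    (h : Dat L.V (fun i => MvPolynomial.map (algebraMap F K) (f i)) ψ f₀ ψ₀) {n : ℕ}
    (hn : n ≠ 0) : ∃ b, Cbk f L.V K n b := by
  have hch : CharZero Ω := charZero_of_injective_algebraMap (algebraMap K Ω).injective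
  obtain ⟨π, hπ⟩ := exists_uf L
  obtain ⟨hψ, hc⟩ := Dat.pj_of hf h L rfl
  exact zr_cbk2 hπ hf hψ hc (fun n hn => gr_all hπ hf hψ hc (fun E hE => Dat.pj_xt hf h E) hn) hn

/-- Over an unramified extension of degree a power of `l`. -/
private theorem m7_l (h : Gdv L.V f d) {r l : ℕ} (hr : r ≠ 0) (hl : 2 ≤ l) {n : ℕ}
    (hn : n ≠ 0) : ∃ a' b : ℕ, Cbk f L.V (L.Ur ⊥ (r * l ^ a')) n b := by
  have hch : CharZero Ω := charZero_of_injective_algebraMap (algebraMap K Ω).injective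
  obtain ⟨π, hπ⟩ := exists_uf L
  obtain ⟨a', m, ψ, f₀, ψ₀, hdat, -, -⟩ := exists_datl' hπ hr hl h
  have hn' : r * l ^ a' ≠ 0 := mul_ne_zero hr (pow_ne_zero a' (by omega))
  have hfd : FiniteDimensional K (L.Ur ⊥ (r * l ^ a')) := Ld.ur_fin ⊥ _ hn'
  have hcl : IsAlgClosure (L.Ur ⊥ (r * l ^ a')) Ω :=
    ⟨IsAlgClosure.isAlgClosed K, Algebra.IsAlgebraic.tower_top (K := K) _⟩
  exact ⟨a', m7_dat (L := xt L (L.Ur ⊥ (r * l ^ a'))) h.hom hdat hn⟩

/-- **The classes modulo `n`**, for every residue characteristic. -/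
theorem Gdv.cbk2 (h : Gdv L.V f d) {n : ℕ} (hn : n ≠ 0) : ∃ b, Cbk f L.V K n b := by
  obtain ⟨r, hr⟩ := exists_rf0 L
  obtain ⟨a, b₁, h₁⟩ := m7_l h hr.ne (le_refl 2) hn
  obtain ⟨b, b₂, h₂⟩ := m7_l h (l := 3) hr.ne (by norm_num) hn
  have hfa : FiniteDimensional K (L.Ur ⊥ (r * 2 ^ a)) :=
    Ld.ur_fin ⊥ _ (mul_ne_zero hr.ne (pow_ne_zero a two_ne_zero))
  have hfb : FiniteDimensional K (L.Ur ⊥ (r * 3 ^ b)) :=
    Ld.ur_fin ⊥ _ (mul_ne_zero hr.ne (pow_ne_zero b three_ne_zero))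
  refine ⟨b₁ * b₂, cbk_cop (inv_V L) ?_ h₁ h₂⟩
  rw [ur_deg hr two_ne_zero, ur_deg hr three_ne_zero]
  exact Nat.Coprime.pow _ _ (by norm_num)

end loc

/-- **Good reduction.** -/
theorem cbk_glob2 {F : Type} [Field F] [NumberField F] {N d : ℕ} {ι : Type}
    {f : ι → MvPolynomial (Fin N) F} (v : HeightOneSpectrum (𝓞 F))
    {V : ValuationSubring (AlgebraicClosure (FK F v))}
    (hV : V.comap (algebraMap (FK F v) _) = CV.Iv v) (h : Gdv V f d) {n : ℕ} (hn : n ≠ 0) :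
    ∃ b, Cbk f V (FK F v) n b := by
  have hch : CharZero (FK F v) :=
    charZero_of_injective_algebraMap (algebraMap F (FK F v)).injective
  obtain ⟨L, hL⟩ := exists_ldI v
  have hVL : V.comap (algebraMap (FK F v) _) = Ok L := by
    rw [hV]
    exact SetLike.ext fun x => (hL x).symm
  obtain rfl := GM.v_uniq L V hVL
  exact h.cbk2 hn

end GX
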