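import Pool.Agent.Lib.MP_f80667_ag.Ng.X
import Pool.Agent.Lib.MP_f80667_ag.Gx.PjE

/-! Good reduction: the ideal over the field is prime, the dimension. -/

open MvPolynomial

namespace GX

private theorem n1_lf {R : Type} [CommRing R] {N : ℕ} (a : Fin N → R) :
    (lf a).IsHomogeneous 1 := by
  unfold lf
  refine IsHomogeneous.sum _ _ _ fun j _ => ?_
  have h := (isHomogeneous_C (Fin N) (a j)).mul (isHomogeneous_X R j)
  rwa [zero_add] at h

section abs

variable {F Ω : Type} [Field F] [Field Ω] [Algebra F Ω] {R : Subring Ω} {N d : ℕ} {ι : Type}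
  {f : ι → MvPolynomial (Fin N) F} {g : ι → MvPolynomial (Fin N) R}

private theorem n1_den
    (hc : ∀ x : F, ∃ c : F, c ≠ 0 ∧ algebraMap F Ω c ∈ R ∧ algebraMap F Ω (c * x) ∈ R)
    (s : Finset F) : ∃ c : F, c ≠ 0 ∧ algebraMap F Ω c ∈ R ∧
      ∀ x ∈ s, algebraMap F Ω (c * x) ∈ R := by
  classical
  induction s using Finset.induction_on with
  | empty => exact ⟨1, one_ne_zero, by rw [map_one]; exact one_mem _, fun x hx => by
      simp only [Finset.notMem_empty] at hx⟩
  | insert a s ha ih =>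
    obtain ⟨c, h0, h1, h2⟩ := ih
    obtain ⟨c', h0', h1', h2'⟩ := hc a
    refine ⟨c * c', mul_ne_zero h0 h0', ?_, fun x hx => ?_⟩
    · rw [map_mul]
      exact mul_mem h1 h1'
    · rcases Finset.mem_insert.1 hx with rfl | hx
      · rw [mul_assoc, map_mul]
        exact mul_mem h1 h2'
      · rw [mul_comm c c', mul_assoc, map_mul]
        exact mul_mem h1' (h2 x hx)

private theorem n1_lift
    (hc : ∀ x : F, ∃ c : F, c ≠ 0 ∧ algebraMap F Ω c ∈ R ∧ algebraMap F Ω (c * x) ∈ R)
    (p : MvPolynomial (Fin N) F) : ∃ (c : F) (P : MvPolynomial (Fin N) R), c ≠ 0 ∧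
      algebraMap F Ω c ∈ R ∧ map R.subtype P = map (algebraMap F Ω) (C c * p) := by
  classical
  obtain ⟨c, h0, h1, h2⟩ := n1_den hc (p.support.image fun m => coeff m p)
  have h3 : ∀ m, algebraMap F Ω (c * coeff m p) ∈ R := by
    intro m
    by_cases hm : m ∈ p.support
    · exact h2 _ (Finset.mem_image_of_mem _ hm)
    · rw [notMem_support_iff.1 hm, mul_zero, map_zero]
      exact zero_mem _
  refine ⟨c, ∑ m ∈ p.support, monomial m ⟨algebraMap F Ω (c * coeff m p), h3 m⟩, h0, h1, ?_⟩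
  ext m
  rw [map_sum, coeff_sum, coeff_map, coeff_C_mul]
  simp only [map_monomial, coeff_monomial, Subring.subtype_apply]
  rw [Finset.sum_ite_eq' p.support m fun m => algebraMap F Ω (c * coeff m p)]
  by_cases h : m ∈ p.support
  · rw [if_pos h]
  · rw [if_neg h, notMem_support_iff.1 h, mul_zero, map_zero]

/-- From the ideal over `F` to the ideal over `R`, up to a constant. -/
private theorem n1_up (hg : ∀ i, map R.subtype (g i) = map (algebraMap F Ω) (f i))
    (hc : ∀ x : F, ∃ c : F, c ≠ 0 ∧ algebraMap F Ω c ∈ R ∧ algebraMap F Ω (c * x) ∈ R)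
    {q : MvPolynomial (Fin N) F} (hq : q ∈ Ideal.span (Set.range f)) :
    ∃ (c : F) (P : MvPolynomial (Fin N) R), c ≠ 0 ∧ algebraMap F Ω c ∈ R ∧
      P ∈ Ideal.span (Set.range g) ∧ map R.subtype P = map (algebraMap F Ω) (C c * q) := by
  induction hq using Submodule.span_induction with
  | mem q hq =>
    obtain ⟨i, rfl⟩ := hq
    refine ⟨1, g i, one_ne_zero, by rw [map_one]; exact one_mem _, Ideal.subset_span ⟨i, rfl⟩, ?_⟩
    rw [C_1, one_mul]
    exact hg i
  | zero =>
    refine ⟨1, 0, one_ne_zero, by rw [map_one]; exact one_mem _, zero_mem _, ?_⟩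
    rw [mul_zero, map_zero, map_zero]
  | add a b _ _ ha hb =>
    obtain ⟨c, P, h1, h2, h3, h4⟩ := ha
    obtain ⟨c', P', h1', h2', h3', h4'⟩ := hb
    refine ⟨c * c', C ⟨_, h2'⟩ * P + C ⟨_, h2⟩ * P', mul_ne_zero h1 h1', ?_,
      add_mem (Ideal.mul_mem_left _ _ h3) (Ideal.mul_mem_left _ _ h3'), ?_⟩
    · rw [map_mul]
      exact mul_mem h2 h2'
    · rw [map_add, map_mul, map_mul, h4, h4', map_C, map_C]
      change C (algebraMap F Ω c') * _ + C (algebraMap F Ω c) * _ = _
      rw [map_mul, map_mul, map_mul, map_C, map_C, map_C, map_add, map_mul, C_mul]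
      ring
  | smul a q _ hq =>
    obtain ⟨c, P, h1, h2, h3, h4⟩ := hq
    obtain ⟨c', P', h1', h2', h4'⟩ := n1_lift hc a
    refine ⟨c * c', P' * P, mul_ne_zero h1 h1', ?_, Ideal.mul_mem_left _ _ h3, ?_⟩
    · rw [map_mul]
      exact mul_mem h2 h2'
    · rw [map_mul, h4, h4', ← map_mul, smul_eq_mul, C_mul]
      congr 1
      ring

/-- From the ideal over `R` to the ideal over `F`. -/
private theorem n1_down (hg : ∀ i, map R.subtype (g i) = map (algebraMap F Ω) (f i))
    {q : MvPolynomial (Fin N) F} {P : MvPolynomial (Fin N) R}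
    (hP : P ∈ Ideal.span (Set.range g)) (h : map R.subtype P = map (algebraMap F Ω) q) :
    q ∈ Ideal.span (Set.range f) := by
  have h1 : map (algebraMap F Ω) q ∈ jf Ω f := by
    rw [← h]
    have h3 := Ideal.mem_map_of_mem (map R.subtype) hP
    rw [Ideal.map_span, ← Set.range_comp] at h3
    have h4 : (map R.subtype ∘ g) = fun i => map (algebraMap F Ω) (f i) :=
      funext fun i => hg i
    rwa [h4] at h3
  obtain ⟨l, hl⟩ : ∃ l : Ω →ₗ[F] F, l 1 = 1 := by
    have h5 : (1 : Ω) ≠ 0 := one_ne_zero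
    obtain ⟨l, hl⟩ : ∃ l : Module.Dual F Ω, l 1 ≠ 0 := by
      by_contra hcon
      push Not at hcon
      exact h5 ((Module.forall_dual_apply_eq_zero_iff F (1 : Ω)).1 hcon)
    exact ⟨(l 1)⁻¹ • l, by rw [LinearMap.smul_apply, smul_eq_mul, inv_mul_cancel₀ hl]⟩
  refine jf_coeff l h1 fun m => ?_
  rw [coeff_map, Algebra.algebraMap_eq_smul_one, map_smul, hl, smul_eq_mul, mul_one]

variable {κ : Type} [Field κ] [IsDiscreteValuationRing R] [Algebra R κ]

/-- **The ideal is prime.** -/
theorem n1_prime (hR : Rk R κ) (hG : Gdr κ g d)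
    (hg : ∀ i, map R.subtype (g i) = map (algebraMap F Ω) (f i))
    (hc : ∀ x : F, ∃ c : F, c ≠ 0 ∧ algebraMap F Ω c ∈ R ∧ algebraMap F Ω (c * x) ∈ R) :
    (Ideal.span (Set.range f)).IsPrime := by
  have hinj : Function.Injective (map (σ := Fin N) R.subtype) :=
    map_injective _ Subtype.val_injective
  -- the ideal over `F` and the ideal over `R`
  have key : ∀ {q : MvPolynomial (Fin N) F} {P : MvPolynomial (Fin N) R},
      map R.subtype P = map (algebraMap F Ω) q → q ∈ Ideal.span (Set.range f) →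
        P ∈ Ideal.span (Set.range g) := by
    intro q P h hq
    obtain ⟨c, P', h1, h2, h3, h4⟩ := n1_up hg hc hq
    have h5 : P' = C ⟨algebraMap F Ω c, h2⟩ * P := hinj (by
      rw [h4, map_mul, map_mul, h, map_C, map_C]
      rfl)
    rw [h5] at h3
    refine hG.sat hR ?_ h3
    intro h6
    have h7 : algebraMap F Ω c = 0 := congrArg Subtype.val h6
    exact h1 ((map_eq_zero_iff _ (algebraMap F Ω).injective).1 h7)
  have hpr := hG.prime hR
  refine Ideal.isPrime_iff.2 ⟨fun htop => ?_, fun {a b} hab => ?_⟩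
  · refine hpr.ne_top ((Ideal.eq_top_iff_one _).2 (key (q := 1) ?_ ?_))
    · rw [map_one, map_one]
    · rw [htop]
      trivial
  · obtain ⟨c, P, h1, h2, h3⟩ := n1_lift hc a
    obtain ⟨c', P', h1', h2', h3'⟩ := n1_lift hc b
    have h4 : P * P' ∈ Ideal.span (Set.range g) := by
      refine key (q := C (c * c') * (a * b)) ?_ (Ideal.mul_mem_left _ _ hab)
      rw [map_mul, h3, h3', ← map_mul, C_mul]
      congr 1
      ring
    have hun : ∀ {c : F} {a : MvPolynomial (Fin N) F}, c ≠ 0 →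
        C c * a ∈ Ideal.span (Set.range f) → a ∈ Ideal.span (Set.range f) := by
      intro c a hc0 h
      have h5 := Ideal.mul_mem_left _ (C c⁻¹) h
      rwa [← mul_assoc, ← C_mul, inv_mul_cancel₀ hc0, C_1, one_mul] at h5
    rcases hpr.mem_or_mem h4 with h5 | h5
    · exact Or.inl (hun h1 (n1_down hg h5 h3))
    · exact Or.inr (hun h1' (n1_down hg h5 h3'))

/-- **The dimension.** -/
theorem n1_dim (hR : Rk R κ) (hG : Gdr κ g d)
    (hg : ∀ i, map R.subtype (g i) = map (algebraMap F Ω) (f i))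
    (hc : ∀ x : F, ∃ c : F, c ≠ 0 ∧ algebraMap F Ω c ∈ R ∧ algebraMap F Ω (c * x) ∈ R) :
    Algebra.trdeg F (MvPolynomial (Fin N) F ⧸ Ideal.span (Set.range f)) ≤ (d + 1 : ℕ) := by
  by_contra hcon
  rw [not_le] at hcon
  have h1 : ((d + 1 + 1 : ℕ) : Cardinal) ≤
      Algebra.trdeg F (MvPolynomial (Fin N) F ⧸ Ideal.span (Set.range f)) := by
    rw [Nat.cast_succ]
    exact Cardinal.add_one_le_of_lt hcon
  have h2 := trd_up hg hc h1
  -- linear forms
  obtain ⟨U, hU⟩ := exists_hn (R := R) hR.inf (d + 1) (J := Ideal.span (Set.range (fr κ g)))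
    (fun a ha n => comp_memR (fun i => by
      obtain ⟨e, he⟩ := hG.hom i
      exact ⟨e, he.map _⟩) ha n) hG.red.dim.le
  obtain ⟨s, hs⟩ := nakR (f := Sum.elim g fun r => lf (U r)) hR (fun i => by
      rcases i with i | r
      · exact hG.hom i
      · exact ⟨1, n1_lf (U r)⟩) (fun k => by
      obtain ⟨s, hs⟩ := hU k
      refine ⟨s, ?_⟩
      have e : Set.range (fr κ (Sum.elim g fun r => lf (U r))) = Set.range (fr κ g) ∪
          Set.range fun r => lf fun j => algebraMap R κ (U r j) := by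
        rw [← Set.Sum.elim_range]
        congr 1
        funext i
        rcases i with i | r
        · rfl
        · exact (lf_map (φ := algebraMap R κ) (U r)).symm
      rw [e, Ideal.span_union]
      exact hs)
  have h3 := trd_low (R := R) (f := g) hG.hom (U := U) (fun k => ⟨s, by
    have h4 := hs k
    rwa [Set.Sum.elim_range, Ideal.span_union] at h4⟩)
  have h4 : ((d + 1 + 1 : ℕ) : Cardinal) ≤ ((d + 1 : ℕ) : Cardinal) := h2.trans h3
  rw [Nat.cast_le] at h4
  omega

end abs

end GX
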