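import Pool.Agent.Lib.MP_f80667_ag.Kt.N1
import Pool.Agent.Lib.MP_f80667_ag.Ng.F

/-! Tangent spaces: change of the field, reduction. -/

open MvPolynomial

namespace GX

section fld

variable {κ κ' : Type} [Field κ] [Field κ'] [Algebra κ κ'] {N n : ℕ} {ι : Type}
  {f : ι → MvPolynomial (Fin N) κ}

/-- **The tangent space over a smaller field.** -/
theorem n2_tgs {x : Fin N → κ} {U : Fin n → Fin N → κ'}
    (h : Ndg (fun i => map (algebraMap κ κ') (f i)) U fun j => algebraMap κ κ' (x j)) :
    Module.finrank κ (tgs f x) ≤ n := by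
  classical
  by_contra hcon
  rw [not_le] at hcon
  obtain ⟨t, ht⟩ : ∃ t : Fin (n + 1) → tgs f x, LinearIndependent κ t := by
    set b := Module.finBasis κ (tgs f x)
    exact ⟨fun i => b (Fin.castLE hcon i), b.linearIndependent.comp _ (Fin.castLE_injective hcon)⟩
  obtain ⟨Φ, hΦ⟩ : ∃ Φ : (Fin (n + 1) → κ') →ₗ[κ'] (Fin n → κ'), ∀ c r, Φ c r =
      ∑ i, c i * ∑ j, U r j * algebraMap κ κ' ((t i : Fin N → κ) j) := by
    refine ⟨LinearMap.pi fun r => ∑ i, (∑ j, U r j * algebraMap κ κ' ((t i : Fin N → κ) j)) •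
      LinearMap.proj i, fun c r => ?_⟩
    rw [LinearMap.pi_apply, LinearMap.sum_apply]
    refine Finset.sum_congr rfl fun i _ => ?_
    rw [LinearMap.smul_apply, LinearMap.proj_apply, smul_eq_mul, mul_comm]
  obtain ⟨c, hc, hc0⟩ : ∃ c, Φ c = 0 ∧ c ≠ 0 := by
    have h1 : LinearMap.ker Φ ≠ ⊥ := LinearMap.ker_ne_bot_of_finrank_lt (by
      rw [Module.finrank_fin_fun, Module.finrank_fin_fun]
      exact Nat.lt_succ_self n)
    obtain ⟨c, hc, hc0⟩ := (Submodule.ne_bot_iff _).1 h1
    exact ⟨c, LinearMap.mem_ker.1 hc, hc0⟩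
  have hw : (fun j => ∑ i, c i * algebraMap κ κ' ((t i : Fin N → κ) j)) = 0 := by
    refine h _ (mem_tgs.2 fun k => ?_) fun r => ?_
    · have h1 : ∀ i, ∑ j, eval (fun j => algebraMap κ κ' (x j))
          (pderiv j (map (algebraMap κ κ') (f k))) * algebraMap κ κ' ((t i : Fin N → κ) j) = 0 := by
        intro i
        have h2 := mem_tgs.1 (t i).2 k
        have h3 := congrArg (algebraMap κ κ') h2
        rw [map_sum, map_zero] at h3
        rw [← h3]
        refine Finset.sum_congr rfl fun j _ => ?_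
        have h4 : algebraMap κ κ' (eval x (pderiv j (f k))) =
            eval₂ (algebraMap κ κ') (fun j => algebraMap κ κ' (x j)) (pderiv j (f k)) :=
          eval₂_comp (algebraMap κ κ') x (pderiv j (f k))
        rw [map_mul, pderiv_map, eval_map, h4]
      calc ∑ j, eval (fun j => algebraMap κ κ' (x j)) (pderiv j (map (algebraMap κ κ') (f k))) *
          ∑ i, c i * algebraMap κ κ' ((t i : Fin N → κ) j)
          = ∑ i, c i * ∑ j, eval (fun j => algebraMap κ κ' (x j))
              (pderiv j (map (algebraMap κ κ') (f k))) *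
                algebraMap κ κ' ((t i : Fin N → κ) j) := by
            simp_rw [Finset.mul_sum]
            rw [Finset.sum_comm]
            refine Finset.sum_congr rfl fun i _ => Finset.sum_congr rfl fun j _ => ?_
            ring
        _ = 0 := Finset.sum_eq_zero fun i _ => by rw [h1 i, mul_zero]
    · have h1 := congrFun hc r
      rw [hΦ, Pi.zero_apply] at h1
      rw [← h1]
      simp_rw [Finset.mul_sum]
      rw [Finset.sum_comm]
      refine Finset.sum_congr rfl fun i _ => Finset.sum_congr rfl fun j _ => ?_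
      ring
  obtain ⟨i₀, hi₀⟩ := Function.ne_iff.1 hc0
  obtain ⟨l, hl⟩ : ∃ l : Module.Dual κ κ', l (c i₀) ≠ 0 := by
    by_contra h1
    push Not at h1
    exact hi₀ ((Module.forall_dual_apply_eq_zero_iff κ (c i₀)).1 h1)
  refine hl (Fintype.linearIndependent_iff.1 ht (fun i => l (c i)) ?_ i₀)
  refine Subtype.ext (funext fun j => ?_)
  have h1 := congrArg l (congrFun hw j)
  rw [Pi.zero_apply, map_zero, map_sum] at h1
  rw [Submodule.coe_sum, Finset.sum_apply]
  refine Eq.trans (Finset.sum_congr rfl fun i _ => ?_) h1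
  rw [Submodule.coe_smul, Pi.smul_apply, smul_eq_mul, mul_comm (c i), ← Algebra.smul_def,
    map_smul, smul_eq_mul, mul_comm]

/-- The tangent space at a multiple of `x`. -/
theorem n2_scale (hf : ∀ i, ∃ e, (f i).IsHomogeneous e) {x : Fin N → κ} {c : κ} (hc : c ≠ 0) :
    tgs f (fun j => c * x j) = tgs f x := by
  ext t
  rw [mem_tgs, mem_tgs]
  refine forall_congr' fun i => ?_
  obtain ⟨e, he⟩ := hf i
  have h1 : ∀ j, eval (fun j => c * x j) (pderiv j (f i)) =
      c ^ (e - 1) * eval x (pderiv j (f i)) := fun j => by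
    have h2 := aeval_smul_hom (he.pderiv (i := j)) x c
    rw [← MvPolynomial.coe_aeval_eq_eval, ← MvPolynomial.coe_aeval_eq_eval]
    exact h2
  have h3 : ∑ j, eval (fun j => c * x j) (pderiv j (f i)) * t j =
      c ^ (e - 1) * ∑ j, eval x (pderiv j (f i)) * t j := by
    rw [Finset.mul_sum]
    refine Finset.sum_congr rfl fun j _ => ?_
    rw [h1, mul_assoc]
  rw [h3]
  constructor
  · intro h
    exact (mul_eq_zero.1 h).resolve_left (pow_ne_zero _ hc)
  · intro h
    rw [h, mul_zero]

end fld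

end GX
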