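import Pool.Agent.Lib.MP_f80667_ag.Kt.N2
import Pool.Agent.Lib.MP_f80667_ag.Kt.M7

/-!
A variety with good reduction is nonsingular.

* `Gdv.nsg'`: over a subfield of a local field.
* `ctv_glob3`: the cycles with reduction `0` and sum `0` at every place of good reduction.
-/

open ZC BE PE CV IntermediateField IsDedekindDomain NumberField

namespace GX

section ring

variable {S κ : Type} [CommRing S] [Field κ] (φ : S →+* κ) {N n : ℕ} {ι : Type}
  (f : ι → MvPolynomial (Fin N) S) (y : Fin N → S) (U : Fin n → Fin N → S)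

/-- The rows over a ring. -/
private noncomputable def n3_rw : ι ⊕ Fin n → Fin N → S :=
  Sum.elim (fun i j => MvPolynomial.eval y (MvPolynomial.pderiv j (f i))) U

private theorem n3_map (a : ι ⊕ Fin n) (j : Fin N) :
    rwm (fun i => MvPolynomial.map φ (f i)) (fun j => φ (y j)) (fun r j => φ (U r j)) a j =
      φ (n3_rw f y U a j) := by
  unfold rwm n3_rw
  rcases a with i | r
  · rw [Sum.elim_inl, Sum.elim_inl, MvPolynomial.pderiv_map, MvPolynomial.eval_map]
    exact (MvPolynomial.eval₂_comp φ y (MvPolynomial.pderiv j (f i))).symm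
  · rw [Sum.elim_inr, Sum.elim_inr]

private theorem n3_det (e : Fin N → ι ⊕ Fin n) :
    (Matrix.of fun k => rwm (fun i => MvPolynomial.map φ (f i)) (fun j => φ (y j))
      (fun r j => φ (U r j)) (e k)).det = φ (Matrix.of fun k => n3_rw f y U (e k)).det := by
  rw [RingHom.map_det]
  congr 1
  ext k j
  exact n3_map φ f y U (e k) j

end ring

section loc

variable {F : Type} [Field F] {N d : ℕ} {ι : Type} {f : ι → MvPolynomial (Fin N) F}
  {K Ω : Type} [Field K] [CharZero K] [Field Ω] [Algebra K Ω] [Algebra F K] [Algebra F Ω]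
  [IsScalarTower F K Ω] [IsAlgClosure K Ω] {L : Ld K Ω}

omit [CharZero K] [Algebra F K] [IsScalarTower F K Ω] [IsAlgClosure K Ω] in
/-- At primitive coordinates. -/
private theorem n3_ndg {f₀ : ι → MvPolynomial (Fin N) (L.V.comap (algebraMap F Ω))}
    (hf₀ : ∀ i, MvPolynomial.map (L.V.comap (algebraMap F Ω)).subtype (f₀ i) = f i)
    (hred : Gdk (fun i => MvPolynomial.map (rdO F L.V) (f₀ i)) d) {y : Fin N → L.V}
    (hy : ∀ i, MvPolynomial.eval (fun j => (y j : Ω))
      (MvPolynomial.map (algebraMap F Ω) (f i)) = 0)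
    (h1 : ∃ k, IsLocalRing.residue L.V (y k) ≠ 0) :
    ∃ U : Fin (d + 1) → Fin N → Ω, Ndg (fun i => MvPolynomial.map (algebraMap F Ω) (f i)) U
      fun j => (y j : Ω) := by
  have eΩ : (fun i => MvPolynomial.map (algebraMap F Ω) (f i)) =
      fun i => MvPolynomial.map (algebraMap L.V Ω) (MvPolynomial.map (iO F L.V) (f₀ i)) :=
    funext fun i => by
      rw [← hf₀ i, MvPolynomial.map_map, MvPolynomial.map_map]
      rfl
  have eκ : (fun i => MvPolynomial.map (rdO F L.V) (f₀ i)) =
      fun i => MvPolynomial.map (IsLocalRing.residue L.V)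
        (MvPolynomial.map (iO F L.V) (f₀ i)) := funext fun i => by
      rw [MvPolynomial.map_map]
      rfl
  have hinj : Function.Injective (algebraMap L.V Ω) := Subtype.val_injective
  -- the reduction is a point of the reduction
  have hz : ∀ i, MvPolynomial.eval y (MvPolynomial.map (iO F L.V) (f₀ i)) = 0 := by
    intro i
    refine hinj ?_
    have h2 := hy i
    have h3 := congrFun eΩ i
    rw [h3, MvPolynomial.eval_map] at h2
    rw [map_zero, ← h2]
    exact MvPolynomial.eval₂_comp (algebraMap L.V Ω) y (MvPolynomial.map (iO F L.V) (f₀ i))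
  have hzp : Zp (fun i => MvPolynomial.map (rdO F L.V) (f₀ i))
      fun j => IsLocalRing.residue L.V (y j) := by
    refine ⟨fun h0 => ?_, fun i => ?_⟩
    · obtain ⟨k, hk⟩ := h1
      exact hk (congrFun h0 k)
    · have h3 := congrFun eκ i
      change MvPolynomial.eval (fun j => IsLocalRing.residue L.V (y j))
        (MvPolynomial.map (rdO F L.V) (f₀ i)) = 0
      rw [show MvPolynomial.map (rdO F L.V) (f₀ i) = _ from h3, MvPolynomial.eval_map]
      refine (MvPolynomial.eval₂_comp (IsLocalRing.residue L.V) y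
        (MvPolynomial.map (iO F L.V) (f₀ i))).symm.trans ?_
      rw [hz i, map_zero]
  obtain ⟨U, hU⟩ := exists_U1 (hred.nsg _ hzp)
  obtain ⟨e, he⟩ := ndg_rows hU
  choose W hW using fun r j => IsLocalRing.residue_surjective (R := L.V) (U r j)
  have hUW : U = fun r j => IsLocalRing.residue L.V (W r j) :=
    funext fun r => funext fun j => (hW r j).symm
  rw [hUW, eκ, n3_det] at he
  refine ⟨fun r j => (algebraMap L.V Ω) (W r j), ?_⟩
  rw [eΩ]
  refine ndg_of (e := e) ?_
  have h4 := n3_det (algebraMap L.V Ω) (fun i => MvPolynomial.map (iO F L.V) (f₀ i)) y W e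
  rw [show (fun j => (y j : Ω)) = fun j => algebraMap L.V Ω (y j) from rfl, h4]
  intro h5
  refine he ?_
  rw [hinj (h5.trans (map_zero _).symm), map_zero]

/-- **A variety with good reduction is nonsingular.** -/
theorem Gdv.nsg' (h : Gdv L.V f d) : Nsg f d := by
  classical
  have hac : IsAlgClosed Ω := IsAlgClosure.isAlgClosed K
  obtain ⟨π, hπ⟩ := exists_uf L
  obtain ⟨r, hr⟩ := exists_rf0 L
  have hdvr : IsDiscreteValuationRing (Rl L r 2) := rl_dvr hπ hr.ne two_ne_zero
  have hR : Rk (Rl L r 2) L.κ := rl_rk hr.ne le_rfl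
  obtain ⟨g, hg, hG⟩ := h.gdr (r := r) (l := 2)
  have hmem : ∀ y : F, L.nm (algebraMap F Ω y) ≤ 1 → algebraMap F Ω y ∈ Rl L r 2 := fun y hy =>
    (iRl L r 2 F ⟨y, hy⟩).2
  have hc : ∀ x : F, ∃ c : F, c ≠ 0 ∧ algebraMap F Ω c ∈ Rl L r 2 ∧
      algebraMap F Ω (c * x) ∈ Rl L r 2 := by
    intro x
    by_cases hx : L.nm (algebraMap F Ω x) ≤ 1
    · refine ⟨1, one_ne_zero, ?_, ?_⟩
      · rw [map_one]
        exact one_mem _
      · rw [one_mul]
        exact hmem x hx
    · have hx0 : x ≠ 0 := by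
        rintro rfl
        rw [map_zero, L.zero] at hx
        exact hx zero_le_one
      refine ⟨x⁻¹, inv_ne_zero hx0, ?_, ?_⟩
      · refine hmem _ ?_
        rw [map_inv₀, L.inv]
        exact inv_le_one_of_one_le₀ (not_le.1 hx).le
      · rw [inv_mul_cancel₀ hx0, map_one]
        exact one_mem _
  refine ⟨h.hom, n1_prime hR hG hg hc, le_antisymm (n1_dim hR hG hg hc) h.dim, ?_⟩
  rintro x ⟨hx0, hx⟩
  obtain ⟨f₀, hf₀, hred⟩ := h.red
  let σ : AlgebraicClosure F →ₐ[F] Ω := IsAlgClosed.lift
  let _ : Algebra (AlgebraicClosure F) Ω := σ.toRingHom.toAlgebra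
  have hσ : ∀ z, algebraMap (AlgebraicClosure F) Ω z = σ z := fun _ => rfl
  -- the largest coordinate
  obtain ⟨j₀, hj₀⟩ := Function.ne_iff.1 hx0
  obtain ⟨k, -, hk⟩ := Finset.exists_max_image Finset.univ (fun j => L.nm (σ (x j)))
    ⟨j₀, Finset.mem_univ _⟩
  have hk0 : 0 < L.nm (σ (x k)) :=
    (L.pos ((_root_.map_ne_zero σ).2 hj₀)).trans_le (hk j₀ (Finset.mem_univ _))
  have hxk : x k ≠ 0 := by
    intro h0
    rw [h0, map_zero, L.zero] at hk0
    exact lt_irrefl _ hk0
  have hle : ∀ j, L.nm (σ ((x k)⁻¹ * x j)) ≤ 1 := fun j => by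
    rw [map_mul, map_inv₀, L.mul, L.inv, inv_mul_le_iff₀ hk0, mul_one]
    exact hk j (Finset.mem_univ _)
  have hhom : ∀ i, ∃ e, (MvPolynomial.map (algebraMap F (AlgebraicClosure F)) (f i)).IsHomogeneous
      e := fun i => by
    obtain ⟨e, he⟩ := h.hom i
    exact ⟨e, he.map _⟩
  have hx' : ∀ i, MvPolynomial.eval (fun j => (x k)⁻¹ * x j)
      (MvPolynomial.map (algebraMap F (AlgebraicClosure F)) (f i)) = 0 := fun i => by
    obtain ⟨e, he⟩ := hhom i
    have h2 := aeval_smul_hom he x (x k)⁻¹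
    have h6 : MvPolynomial.eval x
      (MvPolynomial.map (algebraMap F (AlgebraicClosure F)) (f i)) = 0 := hx i
    rw [← MvPolynomial.coe_aeval_eq_eval] at h6 ⊢
    refine h2.trans ?_
    rw [show MvPolynomial.aeval x (MvPolynomial.map (algebraMap F (AlgebraicClosure F)) (f i)) = 0
      from h6, mul_zero]
  have eΩ : ∀ i, MvPolynomial.map (algebraMap (AlgebraicClosure F) Ω)
      (MvPolynomial.map (algebraMap F (AlgebraicClosure F)) (f i)) =
        MvPolynomial.map (algebraMap F Ω) (f i) := fun i => by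
    rw [MvPolynomial.map_map]
    have h6 : (algebraMap (AlgebraicClosure F) Ω).comp (algebraMap F (AlgebraicClosure F)) =
        algebraMap F Ω := RingHom.ext fun a => σ.commutes a
    rw [h6]
  obtain ⟨U, hU⟩ := n3_ndg (y := fun j => ⟨σ ((x k)⁻¹ * x j), hle j⟩) hf₀ hred (fun i => by
      have h3 := congrArg σ (hx' i)
      rw [map_zero] at h3
      rw [← h3, ← eΩ i, MvPolynomial.eval_map]
      exact (MvPolynomial.eval₂_comp (algebraMap (AlgebraicClosure F) Ω) _ _).symm)
    ⟨k, by
      have h4 : (⟨σ ((x k)⁻¹ * x k), hle k⟩ : L.V) = 1 := Subtype.ext (by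
        change σ ((x k)⁻¹ * x k) = 1
        rw [inv_mul_cancel₀ hxk, map_one])
      rw [h4, map_one]
      exact one_ne_zero⟩
  rw [← n2_scale hhom (inv_ne_zero hxk)]
  refine n2_tgs (κ' := Ω) (U := U) ?_
  have h5 : (fun i => MvPolynomial.map (algebraMap (AlgebraicClosure F) Ω)
      (MvPolynomial.map (algebraMap F (AlgebraicClosure F)) (f i))) =
        fun i => MvPolynomial.map (algebraMap F Ω) (f i) := funext eΩ
  rw [h5]
  exact hU

end loc

/-- A variety over a number field with good reduction at a place is nonsingular. -/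
theorem nsg_glob {F : Type} [Field F] [NumberField F] {N d : ℕ} {ι : Type}
    {f : ι → MvPolynomial (Fin N) F} (v : HeightOneSpectrum (𝓞 F))
    {V : ValuationSubring (AlgebraicClosure (FK F v))}
    (hV : V.comap (algebraMap (FK F v) _) = CV.Iv v) (h : Gdv V f d) : Nsg f d := by
  have hch : CharZero (FK F v) :=
    charZero_of_injective_algebraMap (algebraMap F (FK F v)).injective
  obtain ⟨L, hL⟩ := exists_ldI v
  have hVL : V.comap (algebraMap (FK F v) _) = Ok L := by
    rw [hV]
    exact SetLike.ext fun x => (hL x).symm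
  obtain rfl := GM.v_uniq L V hVL
  exact h.nsg'

/-- **The cycles with reduction `0` and sum `0`** at every place of good reduction. -/
theorem ctv_glob3 {F : Type} [Field F] [NumberField F] {N N' k k' d : ℕ} {ι ι' : Type}
    {f : ι → MvPolynomial (Fin N) F} {A : Gv F N' k' ι'} {M : Mf f A k}
    (hA : A.Ok) (hM : M.Ok) (v : HeightOneSpectrum (𝓞 F)) (hb : M.Alb (AlgebraicClosure F))
    {V : ValuationSubring (AlgebraicClosure (FK F v))}
    (hV : V.comap (algebraMap (FK F v) _) = CV.Iv v) (h : Gdv V f d) {p : ℕ} (hp : p.Prime)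
    (hpv : (p : AlgebraicClosure (FK F v)) ∈ V.nonunits) :
    Ctv V M (FK F v) p :=
  ctv_glob2 (nsg_glob v hV h) hA hM v hb hV h hp hpv

end GX
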